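import Pool.Agent.Helper81.OB.Jm

/-!
# Project OB, layer T, 4: the dimension of `so2 N`
-/

set_option autoImplicit false

open Matrix

namespace Pool.Agent.Helper81.OB

open Pool.Agent.Helper55.OB (jj JR JJ so2 mem_so2)

attribute [local instance 100] LieRing.ofAssociativeRing

/-- the pairs of indices -/
abbrev Pr (N : ℕ) : Type := {p : Fin N × Fin N // p.1 < p.2}

/-- the entries of `J X` above the diagonal -/
def coo (N : ℕ) : so2 N →ₗ[ℝ] (Pr N → ℝ) where
  toFun X p := (X : Matrix (Fin N) (Fin N) ℝ) (jj N p.1.1) p.1.2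
  map_add' X Y := rfl
  map_smul' c X := rfl

theorem coo_bij (N : ℕ) : Function.Bijective (coo N) := by
  constructor
  · rw [← LinearMap.ker_eq_bot, LinearMap.ker_eq_bot']
    intro X hX
    have hs := mem_so2_iff.1 X.2
    apply Subtype.ext
    ext i j
    change (X : Matrix (Fin N) (Fin N) ℝ) i j = 0
    have h1 : ∀ k l : Fin N, k < l → (X : Matrix (Fin N) (Fin N) ℝ) (jj N k) l = 0 := fun k l hkl =>
      congrFun hX ⟨(k, l), hkl⟩
    have h2 : ∀ k l : Fin N, (X : Matrix (Fin N) (Fin N) ℝ) (jj N k) l = 0 := by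
      intro k l
      rcases lt_trichotomy k l with h | h | h
      · exact h1 k l h
      · subst h
        have := hs k k
        linarith
      · have := hs k l
        rw [h1 l k h] at this
        linarith
    rw [← jj_jj i]
    exact h2 _ _
  · intro v
    let Y : Matrix (Fin N) (Fin N) ℝ := Matrix.of fun i j =>
      if h : i < j then v ⟨(i, j), h⟩ else if h : j < i then -v ⟨(j, i), h⟩ else 0
    have hY : ∀ i j, Y j i = -Y i j := by
      intro i j
      simp only [Y, Matrix.of_apply]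
      rcases lt_trichotomy i j with h | h | h
      · rw [dif_neg h.asymm, dif_pos h, dif_pos h]
      · subst h
        simp
      · rw [dif_pos h, dif_neg h.asymm, dif_pos h, neg_neg]
    refine ⟨⟨JR N * Y, mem_so2_iff.2 fun i j => ?_⟩, ?_⟩
    · rw [JR_mul, JR_mul, jj_jj, jj_jj, hY]
    · funext p
      change (JR N * Y) (jj N p.1.1) p.1.2 = v p
      rw [JR_mul, jj_jj]
      simp only [Y, Matrix.of_apply]
      rw [dif_pos p.2]

theorem card_Pr (N : ℕ) : Fintype.card (Pr N) * 2 = N * (N - 1) := by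
  have e : Pr N ≃ (Σ j : Fin N, {i : Fin N // i < j}) :=
    { toFun := fun p => ⟨p.1.2, p.1.1, p.2⟩
      invFun := fun q => ⟨(q.2.1, q.1), q.2.2⟩
      left_inv := fun p => rfl
      right_inv := fun q => rfl }
  rw [Fintype.card_congr e, Fintype.card_sigma]
  have h1 : ∀ j : Fin N, Fintype.card {i : Fin N // i < j} = (j : ℕ) := by
    intro j
    rw [Fintype.card_subtype]
    have : Finset.univ.filter (fun i : Fin N => i < j) = Finset.Iio j := by
      ext i
      simp
    rw [this, Fin.card_Iio]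
  simp only [h1]
  rw [Fin.sum_univ_eq_sum_range (fun i => i) N, Finset.sum_range_id_mul_two]

theorem finrank_so2 (N : ℕ) : Module.finrank ℝ (so2 N) * 2 = N * (N - 1) := by
  rw [(LinearEquiv.ofBijective (coo N) (coo_bij N)).finrank_eq, Module.finrank_fintype_fun_eq_card, card_Pr]

/-- **Layer T, 4.** -/
theorem so2_inj' {n m : ℕ} (hn : 1 ≤ n) (hm : 1 ≤ m) (h : Nonempty (so2 n ≃ₗ⁅ℝ⁆ so2 m)) : n = m := by
  obtain ⟨e⟩ := h
  have h1 := finrank_so2 n
  have h2 := finrank_so2 m
  have h3 : Module.finrank ℝ (so2 n) = Module.finrank ℝ (so2 m) := e.toLinearEquiv.finrank_eq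
  rw [h3, h2] at h1
  obtain ⟨a, rfl⟩ : ∃ a, n = a + 1 := ⟨n - 1, by omega⟩
  obtain ⟨c, rfl⟩ : ∃ c, m = c + 1 := ⟨m - 1, by omega⟩
  simp only [Nat.add_sub_cancel] at h1
  rcases lt_trichotomy a c with h4 | h4 | h4
  · nlinarith
  · rw [h4]
  · nlinarith

end Pool.Agent.Helper81.OB
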