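import Pool.Agent.Helper96.SA.Pol
import Pool.Agent.Helper96.SA.Adj3
import Pool.Agent.Helper96.TO.Max

/-!
# Project OB, layer T: Cartan involutions are conjugate

`cartan_conj`: two Cartan involutions of a real Lie algebra are conjugate by an automorphism. `maxFlat_conj`: maximal flats are transported. `killing_pos`: if `ad x` has the adjoint `- ad (σ x)` for some
inner product, then `0 < - κ(x, σ x)` for `x ≠ 0`.
-/

set_option autoImplicit false

open Matrix Filter Topology NormedSpace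

namespace Pool.Agent.Helper81.OB

open Pool.Agent.Helper96.SA
open Pool.Agent.Helper96.TO (MaxFlat rootsL coord_to killing_to)

variable {L : Type} [LieRing L] [LieAlgebra ℝ L] {M : ℕ} {θ : L ≃ₗ⁅ℝ⁆ L} {b : Module.Basis (Fin M) ℝ L}

/-- the equivalence of an element of `autG b` -/
noncomputable def autEquiv (b : Module.Basis (Fin M) ℝ L) (g : GL (Fin M) ℝ) (hg : g ∈ autG b) : L ≃ₗ⁅ℝ⁆ L :=
  { toLin b b (g : Mat M) with
    map_lie' := fun {x y} => hg x y
    invFun := toLin b b ((g⁻¹ : GL (Fin M) ℝ) : Mat M)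
    left_inv := fun x => by
      change toLin b b ((g⁻¹ : GL (Fin M) ℝ) : Mat M) (toLin b b (g : Mat M) x) = x
      rw [← LinearMap.comp_apply, ← toLin_mul b b b, Units.inv_mul, toLin_one]
      rfl
    right_inv := fun x => by
      change toLin b b (g : Mat M) (toLin b b ((g⁻¹ : GL (Fin M) ℝ) : Mat M) x) = x
      rw [← LinearMap.comp_apply, ← toLin_mul b b b, Units.mul_inv, toLin_one]
      rfl }

theorem autEquiv_apply {g : GL (Fin M) ℝ} (hg : g ∈ autG b) (x : L) : autEquiv b g hg x = toLin b b (g : Mat M) x := rfl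

/-- Two Cartan involutions are conjugate. -/
theorem cartan_conj (h : CartanBasis θ b) {θ₀ : L ≃ₗ⁅ℝ⁆ L} (hinv : ∀ x, θ₀ (θ₀ x) = x)
    (hpos : ∀ x, x ≠ 0 → 0 < -killingForm ℝ L x (θ₀ x)) : ∃ φ : L ≃ₗ⁅ℝ⁆ L, ∀ x, φ (θ₀ x) = θ (φ x) := by
  have : FiniteDimensional ℝ L := Module.Finite.of_basis b
  have : Module.Free ℝ L := Module.Free.of_basis b
  have hk : ∀ (e : L ≃ₗ⁅ℝ⁆ L) (x y : L), killingForm ℝ L (e x) (e y) = killingForm ℝ L x y := fun e x y =>
    LieAlgebra.killingForm_of_equiv_apply e x y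
  have hsym : ∀ x y : L, killingForm ℝ L x y = killingForm ℝ L y x := fun x y => LieModule.traceForm_comm ℝ L L x y
  -- the matrices
  let Θ : Mat M := LinearMap.toMatrix b b (θ : L →ₗ[ℝ] L)
  let T : Mat M := LinearMap.toMatrix b b ((θ : L →ₗ[ℝ] L) ∘ₗ (θ₀ : L →ₗ[ℝ] L))
  have hT : ∀ i j, T i j = -killingForm ℝ L (θ₀ (b j)) (b i) := by
    intro i j
    have h1 : T i j = b.repr (θ (θ₀ (b j))) i := LinearMap.toMatrix_apply b b _ i j
    rw [h1, coord_to h, hk]
  have hTs : Tᵀ = T := by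
    ext i j
    rw [Matrix.transpose_apply, hT, hT, hsym (θ₀ (b i)), ← hk θ₀ (b j), hinv]
  have hTq : ∀ v : Fin M → ℝ, v ⬝ᵥ (T *ᵥ v) = -killingForm ℝ L (∑ i, v i • b i) (θ₀ (∑ i, v i • b i)) := by
    intro v
    simp only [dotProduct, mulVec, map_sum, map_smul, LinearMap.sum_apply, LinearMap.smul_apply, hT, smul_eq_mul, Finset.mul_sum]
    rw [← Finset.sum_neg_distrib, Finset.sum_comm]
    refine Finset.sum_congr rfl fun i _ => ?_
    rw [← Finset.sum_neg_distrib]
    refine Finset.sum_congr rfl fun j _ => ?_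
    rw [hsym (θ₀ (b i))]
    ring
  have hPD : T.PosDef := by
    refine Matrix.PosDef.of_dotProduct_mulVec_pos ?_ fun v hv => ?_
    · rw [Matrix.IsHermitian, conjTranspose_eq_transpose_of_trivial]
      exact hTs
    · have h1 : star v = v := by
        funext i
        exact star_trivial (v i)
      rw [h1, hTq]
      apply hpos
      intro h2
      apply hv
      funext i
      have h3 := b.repr_sum_self v
      rw [h2, map_zero] at h3
      exact (congrFun h3 i).symm
  obtain ⟨U, μ, hU1, hU2, hμ, hP⟩ : ∃ (U : Mat M) (μ : Fin M → ℝ), Uᵀ * U = 1 ∧ U * Uᵀ = 1 ∧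
      (∀ i, 0 < μ i) ∧ T = U * diagonal μ * Uᵀ := by
    refine ⟨hPD.1.eigenvectorUnitary, hPD.1.eigenvalues, ?_, ?_, hPD.eigenvalues_pos, ?_⟩
    · have := Unitary.coe_star_mul_self hPD.1.eigenvectorUnitary
      rw [Matrix.star_eq_conjTranspose, conjTranspose_eq_transpose_of_trivial] at this
      exact this
    · have := Unitary.coe_mul_star_self hPD.1.eigenvectorUnitary
      rw [Unitary.coe_star, Matrix.star_eq_conjTranspose, conjTranspose_eq_transpose_of_trivial] at this
      exact this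
    · have := hPD.1.spectral_theorem
      rw [Unitary.conjStarAlgAut_apply, Matrix.star_eq_conjTranspose,
        conjTranspose_eq_transpose_of_trivial] at this
      exact this
  let d : Fin M → ℝ := fun i => Real.log (μ i)
  let E : ℝ → Mat M := fun t => U * diagonal (fun i => Real.exp (t * d i)) * Uᵀ
  have hE1 : E 1 = T := by
    rw [hP]
    change U * diagonal (fun i => Real.exp (1 * Real.log (μ i))) * Uᵀ = _
    congr 3
    funext i
    rw [one_mul, Real.exp_log (hμ i)]
  have hEadd : ∀ s t, E (s + t) = E s * E t := by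
    intro s t
    change U * diagonal (fun i => Real.exp ((s + t) * d i)) * Uᵀ = (U * diagonal (fun i => Real.exp (s * d i)) * Uᵀ) *
      (U * diagonal (fun i => Real.exp (t * d i)) * Uᵀ)
    have e1 : (fun i => Real.exp ((s + t) * d i)) = fun i => Real.exp (s * d i) * Real.exp (t * d i) := by
      funext i
      rw [← Real.exp_add, add_mul]
    rw [e1, ← diagonal_mul_diagonal]
    calc U * (diagonal (fun i => Real.exp (s * d i)) * diagonal (fun i => Real.exp (t * d i))) * Uᵀ
        = U * diagonal (fun i => Real.exp (s * d i)) * 1 * diagonal (fun i => Real.exp (t * d i)) * Uᵀ := by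
          simp only [Matrix.mul_assoc, Matrix.one_mul]
      _ = _ := by
          rw [← hU1]
          simp only [Matrix.mul_assoc]
  have hE0 : E 0 = 1 := by
    change U * diagonal (fun i => Real.exp (0 * d i)) * Uᵀ = 1
    have e1 : (fun i => Real.exp (0 * d i)) = fun _ => (1 : ℝ) := by
      funext i
      rw [zero_mul, Real.exp_zero]
    rw [e1, diagonal_one, Matrix.mul_one, hU2]
  let EU : ℝ → GL (Fin M) ℝ := fun t => ⟨E t, E (-t), by rw [← hEadd, add_neg_cancel, hE0], by rw [← hEadd, neg_add_cancel, hE0]⟩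
  have hEn : ∀ n : ℕ, E n = T ^ n := by
    intro n
    induction n with
    | zero => rw [Nat.cast_zero, hE0, pow_zero]
    | succ n ih => rw [Nat.cast_succ, hEadd, ih, hE1, pow_succ]
  have hTl : ∀ x, toLin b b T x = θ (θ₀ x) := by
    intro x
    change toLin b b (LinearMap.toMatrix b b _) x = _
    rw [Matrix.toLin_toMatrix]
    rfl
  have hΘl : ∀ x, toLin b b Θ x = θ x := by
    intro x
    change toLin b b (LinearMap.toMatrix b b _) x = _
    rw [Matrix.toLin_toMatrix]
    rfl
  have hT1 : EU 1 ∈ autG b := by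
    intro x y
    have e1 : ((EU 1 : GL (Fin M) ℝ) : Mat M) = T := hE1
    rw [e1, hTl, hTl, hTl, LieEquiv.map_lie, LieEquiv.map_lie]
  have hEUn : ∀ n : ℕ, EU n ∈ autG b := by
    intro n
    have e1 : EU n = EU 1 ^ n := by
      apply Units.ext
      rw [Units.val_pow_eq_pow_val]
      change E n = (E 1) ^ n
      rw [hE1, hEn]
    rw [e1]
    exact (autG b).pow_mem hT1 n
  have hEt : ∀ t : ℝ, EU t ∈ autG b := by
    obtain ⟨S, hS⟩ := (algSelfAdj_autG h).alg
    intro t
    rw [hS]
    intro p hp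
    exact eval_exp_eq_zero p U Uᵀ d (fun n => (hS _).1 (hEUn n) p hp) t
  -- the relation with `Θ`
  have hΘΘ : Θ * Θ = 1 := by
    apply (Matrix.toLin b b).injective
    refine LinearMap.ext fun x => ?_
    rw [toLin_mul b b b, LinearMap.comp_apply, hΘl, hΘl, h.invol, toLin_one]
    rfl
  have hΘT : Θ * T * Θ * T = 1 := by
    apply (Matrix.toLin b b).injective
    refine LinearMap.ext fun x => ?_
    rw [toLin_mul b b b, toLin_mul b b b, toLin_mul b b b, LinearMap.comp_apply, LinearMap.comp_apply, LinearMap.comp_apply, hTl x,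
      hΘl (θ (θ₀ x)), h.invol, hTl, hinv, hΘl, h.invol, toLin_one]
    rfl
  have hΘn : ∀ n : ℕ, Θ * T ^ n * Θ * T ^ n = 1 := by
    intro n
    have e1 : Θ * T ^ n * Θ = (Θ * T * Θ) ^ n := by
      induction n with
      | zero => rw [pow_zero, pow_zero, Matrix.mul_one, hΘΘ]
      | succ n ih =>
        rw [pow_succ, pow_succ, ← ih]
        calc Θ * (T ^ n * T) * Θ = Θ * T ^ n * (1 : Mat M) * T * Θ := by simp only [Matrix.mul_assoc, Matrix.one_mul]
          _ = _ := by
            rw [← hΘΘ]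
            simp only [Matrix.mul_assoc]
    have e2 : Commute (Θ * T * Θ) T := by
      have h3 : T * (Θ * T * Θ) = 1 := mul_eq_one_comm.1 hΘT
      change Θ * T * Θ * T = T * (Θ * T * Θ)
      rw [hΘT, h3]
    rw [e1, ← e2.mul_pow, hΘT, one_pow]
  have hΘt : ∀ t : ℝ, Θ * E t * Θ * E t = 1 := by
    intro t
    ext i j
    let p : MvPolynomial (Fin M × Fin M) ℝ :=
      (∑ k, ∑ l, ∑ m, MvPolynomial.C (Θ i k) * MvPolynomial.X (k, l) * MvPolynomial.C (Θ l m) * MvPolynomial.X (m, j)) -
        MvPolynomial.C ((1 : Mat M) i j)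
    have hp : ∀ Y : Mat M, MvPolynomial.eval (fun ij => Y ij.1 ij.2) p = (Θ * Y * Θ * Y) i j - (1 : Mat M) i j := by
      intro Y
      simp only [p, map_sub, map_sum, map_mul, MvPolynomial.eval_X, MvPolynomial.eval_C, Matrix.mul_apply, Finset.sum_mul]
      congr 1
      rw [Finset.sum_comm]
      have e1 : ∀ l, ∑ k, ∑ m, Θ i k * Y k l * Θ l m * Y m j = ∑ m, ∑ k, Θ i k * Y k l * Θ l m * Y m j := fun l => Finset.sum_comm
      simp only [e1]
      rw [Finset.sum_comm]
    have h1 := eval_exp_eq_zero p U Uᵀ d (fun n => by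
      have h2 := hp (E n)
      rw [hEn, hΘn, sub_self] at h2
      rw [← hEn] at h2
      exact h2) t
    have h2 := hp (E t)
    have h3 : (Θ * E t * Θ * E t) i j - (1 : Mat M) i j = 0 := h2.symm.trans h1
    linarith
  -- the automorphism
  refine ⟨autEquiv b (EU (1 / 2)) (hEt _), fun x => ?_⟩
  rw [autEquiv_apply, autEquiv_apply]
  change toLin b b (E (1 / 2)) (θ₀ x) = θ (toLin b b (E (1 / 2)) x)
  have h1 : E (1 / 2) * E (1 / 2) = T := by
    rw [← hEadd, ← hE1]
    norm_num
  have h2 := hΘt (1 / 2)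
  have h3 : E (1 / 2) * (Θ * T) = Θ * E (1 / 2) := by
    rw [← h1]
    have h4 : E (1 / 2) * (Θ * E (1 / 2) * Θ) = 1 := mul_eq_one_comm.1 h2
    calc E (1 / 2) * (Θ * (E (1 / 2) * E (1 / 2))) = E (1 / 2) * (Θ * E (1 / 2) * (Θ * Θ)) * E (1 / 2) := by
          rw [hΘΘ, Matrix.mul_one]
          simp only [Matrix.mul_assoc]
      _ = (E (1 / 2) * (Θ * E (1 / 2) * Θ)) * Θ * E (1 / 2) := by simp only [Matrix.mul_assoc]
      _ = Θ * E (1 / 2) := by rw [h4, Matrix.one_mul]
  have h5 := congrArg (fun Y => toLin b b Y x) h3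
  simp only [toLin_mul b b b, LinearMap.comp_apply, hΘl, hTl] at h5
  rw [h.invol] at h5
  exact h5

/-- maximal flats are transported -/
theorem maxFlat_conj {θ₀ φ : L ≃ₗ⁅ℝ⁆ L} (hφ : ∀ x, φ (θ₀ x) = θ (φ x)) {A : Submodule ℝ L} (hA : MaxFlat θ₀ A) :
    MaxFlat θ (A.map (φ : L →ₗ[ℝ] L)) where
  neg := by
    rintro _ ⟨x, hx, rfl⟩
    change θ (φ x) = -φ x
    rw [← hφ, hA.neg x hx, map_neg]
  abel := by
    rintro _ ⟨x, hx, rfl⟩ _ ⟨y, hy, rfl⟩
    change ⁅φ x, φ y⁆ = 0
    rw [← LieEquiv.map_lie, hA.abel x hx y hy, map_zero]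
  max := by
    intro x hx hxy
    refine ⟨φ.symm x, hA.max _ ?_ fun y hy => ?_, φ.apply_symm_apply x⟩
    · apply φ.injective
      change φ (θ₀ (φ.symm x)) = φ (-φ.symm x)
      rw [hφ, φ.apply_symm_apply, hx, map_neg, φ.apply_symm_apply]
    · apply φ.injective
      change φ ⁅φ.symm x, y⁆ = φ 0
      rw [LieEquiv.map_lie, φ.apply_symm_apply, map_zero]
      exact hxy _ ⟨y, hy, rfl⟩

/-- Positivity of the Killing form. -/
theorem killing_pos [FiniteDimensional ℝ L] (hc : ∀ x : L, (∀ y : L, ⁅x, y⁆ = 0) → x = 0) (B : L →ₗ[ℝ] L →ₗ[ℝ] ℝ) (σ : L → L)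
    (hs : ∀ x y, B x y = B y x) (hp : ∀ x, x ≠ 0 → 0 < B x x) (had : ∀ x y z, B ⁅x, y⁆ z = -B y ⁅σ x, z⁆) {x : L} (hx : x ≠ 0) :
    0 < -killingForm ℝ L x (σ x) := by
  let cI : InnerProductSpace.Core ℝ L :=
    { inner := fun x y => B x y
      conj_inner_symm := fun x y => by
        change B y x = B x y
        exact hs y x
      re_inner_nonneg := fun x => by
        change 0 ≤ B x x
        by_cases h : x = 0
        · rw [h, map_zero]
        · exact (hp x h).le
      add_left := fun x y z => by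
        change B (x + y) z = B x z + B y z
        rw [map_add, LinearMap.add_apply]
      smul_left := fun x y r => by
        change B (r • x) y = r * B x y
        rw [map_smul, LinearMap.smul_apply, smul_eq_mul]
      definite := fun x hx => by
        by_contra h
        exact absurd hx (hp x h).ne' }
  letI : NormedAddCommGroup L := @InnerProductSpace.Core.toNormedAddCommGroup ℝ L _ _ _ cI
  letI : InnerProductSpace ℝ L := InnerProductSpace.ofCore cI.toCore
  have hin : ∀ x y : L, inner ℝ x y = B x y := fun x y => rfl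
  have h1 : killingForm ℝ L x (σ x) = LinearMap.trace ℝ L ((LieAlgebra.ad ℝ L x).comp (LieAlgebra.ad ℝ L (σ x))) :=
    killingForm_apply_apply ℝ L x (σ x)
  have h2 : LinearMap.trace ℝ L ((LieAlgebra.ad ℝ L x).comp (LieAlgebra.ad ℝ L (σ x))) =
      LinearMap.trace ℝ L ((LieAlgebra.ad ℝ L (σ x)).comp (LieAlgebra.ad ℝ L x)) := LinearMap.trace_comp_comm' _ _
  rw [h1, h2, LinearMap.trace_eq_sum_inner _ (stdOrthonormalBasis ℝ L), ← Finset.sum_neg_distrib]
  have h3 : ∀ i, -(inner ℝ (stdOrthonormalBasis ℝ L i) (((LieAlgebra.ad ℝ L (σ x)).comp (LieAlgebra.ad ℝ L x)) (stdOrthonormalBasis ℝ L i))) =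
      B ⁅x, stdOrthonormalBasis ℝ L i⁆ ⁅x, stdOrthonormalBasis ℝ L i⁆ := by
    intro i
    rw [hin, LinearMap.comp_apply, LieAlgebra.ad_apply, LieAlgebra.ad_apply, had]
  simp only [h3]
  have h4 : ∀ y : L, 0 ≤ B y y := fun y => by
    by_cases h : y = 0
    · rw [h, map_zero]
    · exact (hp y h).le
  apply lt_of_le_of_ne (Finset.sum_nonneg fun i _ => h4 _)
  intro h5
  apply hx
  apply hc
  have h6 := (Finset.sum_eq_zero_iff_of_nonneg fun i _ => h4 _).1 h5.symm
  have h7 : ∀ i, ⁅x, (stdOrthonormalBasis ℝ L).toBasis i⁆ = 0 := by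
    intro i
    by_contra h
    rw [OrthonormalBasis.coe_toBasis] at h
    exact absurd (h6 i (Finset.mem_univ _)) (hp _ h).ne'
  have h8 : LieAlgebra.ad ℝ L x = 0 := by
    refine (stdOrthonormalBasis ℝ L).toBasis.ext fun i => ?_
    rw [LieAlgebra.ad_apply, h7, LinearMap.zero_apply]
  intro y
  rw [← LieAlgebra.ad_apply ℝ L, h8, LinearMap.zero_apply]

end Pool.Agent.Helper81.OB
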