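import Pool.Agent.Helper81.OB.Jm
import Pool.Agent.Helper96.SA.Pol
import Pool.Agent.Helper96.SA.Conj

/-!
# Project OB, layer T, 2: Cartan decompositions in the group of the form `J`

`kak_sorted`: every real matrix `A` with `Aᵀ J A = J`, `N ≥ 4`, is `k diag(exp d) k'ᵀ`, `k`, `k'` orthogonal and preserving `J`, `d` antitone, `d (rev i) = - d i`, `d i = 0` for `2 ≤ i ≤ N - 3`.
-/

set_option autoImplicit false

open Filter Topology Matrix NormedSpace

namespace Pool.Agent.Helper81.OB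

open Pool.Agent.Helper55.OB (jj JR JJ so2 mem_so2)
open Pool.Agent.Helper96.SA

attribute [local instance 100] LieRing.ofAssociativeRing

variable {N : ℕ}

/-- The group of the form `J`. -/
def GJ (N : ℕ) : Subgroup (GL (Fin N) ℝ) where
  carrier := {g | (g : Mat N)ᵀ * JR N * (g : Mat N) = JR N}
  mul_mem' {g h} hg hh := by
    change ((g * h : GL (Fin N) ℝ) : Mat N)ᵀ * JR N * ((g * h : GL (Fin N) ℝ) : Mat N) = JR N
    rw [Units.val_mul]
    exact OJ_mul hg hh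
  one_mem' := by
    change ((1 : GL (Fin N) ℝ) : Mat N)ᵀ * JR N * ((1 : GL (Fin N) ℝ) : Mat N) = JR N
    rw [Units.val_one, Matrix.transpose_one, Matrix.one_mul, Matrix.mul_one]
  inv_mem' {g} hg := by
    change ((g⁻¹ : GL (Fin N) ℝ) : Mat N)ᵀ * JR N * ((g⁻¹ : GL (Fin N) ℝ) : Mat N) = JR N
    have h1 : ((g⁻¹ : GL (Fin N) ℝ) : Mat N) = JR N * (g : Mat N)ᵀ * JR N := Units.inv_eq_of_mul_eq_one_left (OJ_inv hg)
    rw [h1]
    exact OJ_inv_mem hg

theorem mem_GJ {g : GL (Fin N) ℝ} : g ∈ GJ N ↔ (g : Mat N)ᵀ * JR N * (g : Mat N) = JR N := Iff.rfl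

theorem isClosed_GJ : IsClosed (GJ N : Set (GL (Fin N) ℝ)) := by
  have c : Continuous (fun g : GL (Fin N) ℝ => (g : Mat N)) := Units.continuous_val
  exact isClosed_eq ((c.matrix_transpose.matrix_mul continuous_const).matrix_mul c) continuous_const

theorem alg_GJ : AlgSelfAdj (GJ N) where
  alg := by
    refine ⟨Set.range fun q : Fin N × Fin N => (∑ k : Fin N, MvPolynomial.X (k, q.1) * MvPolynomial.X (jj N k, q.2)) -
      MvPolynomial.C (JR N q.1 q.2), fun g => ?_⟩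
    have e1 : ∀ i j : Fin N, ((g : Mat N)ᵀ * JR N * (g : Mat N)) i j = ∑ k : Fin N, (g : Mat N) k i * (g : Mat N) (jj N k) j := by
      intro i j
      rw [Matrix.mul_assoc, Matrix.mul_apply]
      refine Finset.sum_congr rfl fun k _ => ?_
      rw [Matrix.transpose_apply, JR_mul]
    rw [mem_GJ]
    constructor
    · rintro h _ ⟨q, rfl⟩
      simp only [map_sub, map_sum, map_mul, MvPolynomial.eval_X, MvPolynomial.eval_C]
      rw [← e1, h, sub_self]
    · intro h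
      ext i j
      have h1 := h _ ⟨(i, j), rfl⟩
      simp only [map_sub, map_sum, map_mul, MvPolynomial.eval_X, MvPolynomial.eval_C] at h1
      rw [e1]
      exact sub_eq_zero.1 h1
  transpose g hg := by
    have h1 : (g : Mat N) * JR N * (g : Mat N)ᵀ = JR N := OJ_transpose hg
    have hu : IsUnit ((g : Mat N)ᵀ) := by
      rw [Matrix.isUnit_transpose]
      exact g.isUnit
    obtain ⟨h, hh⟩ := hu
    refine ⟨h, ?_, hh⟩
    rw [mem_GJ, hh, Matrix.transpose_transpose]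
    exact h1

theorem smul_mem_so2 {X : Mat N} (hX : X ∈ so2 N) (t : ℝ) : t • X ∈ so2 N := (so2 N).smul_mem t hX

theorem lie_GJ_of {X : Mat N} (hX : X ∈ so2 N) : X ∈ lie (GJ N) := by
  rw [mem_lie]
  intro t
  exact exp_mem (smul_mem_so2 hX t)

open scoped Matrix.Norms.Operator in
theorem so2_of_lie {X : Mat N} (hX : X ∈ lie (GJ N)) : X ∈ so2 N := by
  rw [mem_lie] at hX
  have h1 : ∀ t : ℝ, exp (t • Xᵀ) * JR N * exp (t • X) = JR N := by
    intro t
    have h2 := hX t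
    rw [mem_GJ, ex_transpose, ex_coe, ex_coe, Matrix.transpose_smul] at h2
    exact h2
  have hd : HasDerivAt (fun t : ℝ => exp (t • Xᵀ) * JR N * exp (t • X)) (Xᵀ * JR N + JR N * X) 0 := by
    have d1 : HasDerivAt (fun t : ℝ => exp (t • Xᵀ)) (Xᵀ * exp ((0 : ℝ) • Xᵀ)) 0 := hasDerivAt_exp_smul_const' Xᵀ 0
    have d2 : HasDerivAt (fun t : ℝ => exp (t • X)) (X * exp ((0 : ℝ) • X)) 0 := hasDerivAt_exp_smul_const' X 0
    have d3 := (d1.mul_const (JR N)).mul d2
    have e1 : Xᵀ * exp ((0 : ℝ) • Xᵀ) * JR N * exp ((0 : ℝ) • X) + exp ((0 : ℝ) • Xᵀ) * JR N * (X * exp ((0 : ℝ) • X)) =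
        Xᵀ * JR N + JR N * X := by
      rw [zero_smul, zero_smul, exp_zero, mul_one, mul_one, mul_one, one_mul]
    rw [e1] at d3
    exact d3
  have hc : (fun t : ℝ => exp (t • Xᵀ) * JR N * exp (t • X)) = fun _ => JR N := funext h1
  rw [hc] at hd
  rw [mem_so2]
  exact hd.unique (hasDerivAt_const 0 (JR N))

/-- The standard flat. -/
def VJ (N : ℕ) : Submodule ℝ (Mat N) where
  carrier := {X | ∃ d : Fin N → ℝ, (∀ i, d (jj N i) = -d i) ∧ X = diagonal d}
  add_mem' := by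
    rintro _ _ ⟨d, hd, rfl⟩ ⟨e, he, rfl⟩
    refine ⟨d + e, fun i => ?_, (Matrix.diagonal_add d e)⟩
    rw [Pi.add_apply, Pi.add_apply, hd, he]
    ring
  zero_mem' := ⟨0, fun i => by simp, (Matrix.diagonal_zero).symm⟩
  smul_mem' := by
    rintro c _ ⟨d, hd, rfl⟩
    refine ⟨c • d, fun i => ?_, (Matrix.diagonal_smul c d).symm⟩
    rw [Pi.smul_apply, Pi.smul_apply, hd, smul_neg]

theorem diag_mem {d : Fin N → ℝ} (hd : ∀ i, d (jj N i) = -d i) : diagonal d ∈ so2 N := by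
  rw [mem_so2_iff]
  intro i j
  by_cases h : i = jj N j
  · subst h
    rw [jj_jj, Matrix.diagonal_apply_eq, Matrix.diagonal_apply_eq, hd]
  · rw [Matrix.diagonal_apply_ne _ (Ne.symm h), Matrix.diagonal_apply_ne _ (fun h1 => h (eq_jj_iff.1 h1.symm)), neg_zero]

theorem isFlat_VJ : IsFlat (GJ N) (VJ N) where
  mem := by
    rintro _ ⟨d, hd, rfl⟩
    exact lie_GJ_of (diag_mem hd)
  symm := by
    rintro _ ⟨d, -, rfl⟩
    exact diagonal_transpose d
  comm := by
    rintro _ ⟨d, -, rfl⟩ _ ⟨e, -, rfl⟩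
    rw [diagonal_mul_diagonal, diagonal_mul_diagonal]
    congr 1
    funext i
    ring

/-- a regular element of the flat -/
def d0 (N : ℕ) (i : Fin N) : ℝ :=
  if (i : ℕ) = 0 then 2 else if (i : ℕ) = 1 then 1 else if (i : ℕ) + 1 = N then -2 else if (i : ℕ) + 2 = N then -1 else 0

theorem jj_val (i : Fin N) : ((jj N i : Fin N) : ℕ) = if (i : ℕ) < 2 ∨ N ≤ (i : ℕ) + 2 then N - 1 - (i : ℕ) else (i : ℕ) := by
  unfold jj
  split_ifs with h
  · rw [Fin.val_rev]
    omega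
  · rfl

theorem d0_jj (hN : 4 ≤ N) (i : Fin N) : d0 N (jj N i) = -d0 N i := by
  have h1 := jj_val i
  have hi := i.2
  unfold d0
  split_ifs at h1 with h
  · rw [h1]
    rcases (by omega : (i : ℕ) = 0 ∨ (i : ℕ) = 1 ∨ (i : ℕ) + 1 = N ∨ (i : ℕ) + 2 = N) with h2 | h2 | h2 | h2
    · rw [if_neg (by omega), if_neg (by omega), if_pos (by omega), if_pos h2]
    · rw [if_neg (by omega), if_neg (by omega), if_neg (by omega), if_pos (by omega), if_neg (by omega), if_pos h2]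
    · rw [if_pos (by omega), if_neg (by omega), if_neg (by omega), if_pos h2, neg_neg]
    · rw [if_neg (by omega), if_pos (by omega), if_neg (by omega), if_neg (by omega), if_neg (by omega), if_pos h2, neg_neg]
  · rw [h1, if_neg (by omega), if_neg (by omega), if_neg (by omega), if_neg (by omega), neg_zero]

theorem d0_eq (hN : 4 ≤ N) {i j : Fin N} (hij : i ≠ j) (h : d0 N i = d0 N j) : jj N i = i ∧ jj N j = j := by
  have hi := i.2
  have hj := j.2
  have hij' : (i : ℕ) ≠ j := fun h => hij (Fin.ext h)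
  have key : ∀ k : Fin N, ¬((k : ℕ) < 2 ∨ N ≤ (k : ℕ) + 2) → jj N k = k := by
    intro k hk
    unfold jj
    rw [if_neg hk]
  have h0 : ∀ k : Fin N, d0 N k = 0 → jj N k = k := by
    intro k hk
    apply key
    rintro hk2
    have := k.2
    unfold d0 at hk
    rcases (by omega : (k : ℕ) = 0 ∨ (k : ℕ) = 1 ∨ (k : ℕ) + 1 = N ∨ (k : ℕ) + 2 = N) with h2 | h2 | h2 | h2
    · rw [if_pos h2] at hk
      norm_num at hk
    · rw [if_neg (by omega), if_pos h2] at hk
      norm_num at hk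
    · rw [if_neg (by omega), if_neg (by omega), if_pos h2] at hk
      norm_num at hk
    · rw [if_neg (by omega), if_neg (by omega), if_neg (by omega), if_pos h2] at hk
      norm_num at hk
  have h1 : d0 N i = 0 := by
    by_contra hne
    unfold d0 at h hne
    split_ifs at h hne <;> first | omega | (norm_num at h; done) | exact hne rfl
  exact ⟨h0 i h1, h0 j (by rw [← h, h1])⟩

theorem max_VJ (hN : 4 ≤ N) {Y : Mat N} (hY : Y ∈ so2 N) (hYs : Yᵀ = Y) (hc : ∀ H ∈ VJ N, Y * H = H * Y) : Y ∈ VJ N := by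
  have h1 := hc _ ⟨d0 N, d0_jj hN, rfl⟩
  have hs : ∀ i j, Y j i = Y i j := fun i j => congrFun (congrFun hYs i) j
  have hm := mem_so2_iff.1 hY
  have h2 : ∀ i j, i ≠ j → Y i j = 0 := by
    intro i j hij
    have h3 := congrFun (congrFun h1 i) j
    rw [Matrix.mul_diagonal, Matrix.diagonal_mul] at h3
    by_cases h4 : d0 N i = d0 N j
    · obtain ⟨h5, h6⟩ := d0_eq hN hij h4
      have h7 := hm i j
      rw [h5, h6, hs i j] at h7
      linarith
    · have h5 : (d0 N i - d0 N j) * Y i j = 0 := by linarith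
      rcases mul_eq_zero.1 h5 with h6 | h6
      · exact absurd (sub_eq_zero.1 h6) h4
      · exact h6
  refine ⟨fun i => Y i i, fun i => ?_, ?_⟩
  · have := hm i (jj N i)
    rw [jj_jj] at this
    linarith
  · ext i j
    by_cases h : i = j
    · subst h
      rw [Matrix.diagonal_apply_eq]
    · rw [Matrix.diagonal_apply_ne _ h, h2 i j h]

/-- the matrix `A` has a Cartan decomposition with the exponents `d` -/
def Kak (A : Mat N) (d : Fin N → ℝ) : Prop :=
  ∃ k k' : Mat N, (kᵀ * k = 1 ∧ kᵀ * JR N * k = JR N) ∧ (k'ᵀ * k' = 1 ∧ k'ᵀ * JR N * k' = JR N) ∧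
    A = k * diagonal (fun i => Real.exp (d i)) * k'ᵀ

theorem kak (hN : 4 ≤ N) {A : Mat N} (hA : Aᵀ * JR N * A = JR N) : ∃ d : Fin N → ℝ, (∀ i, d (jj N i) = -d i) ∧ Kak A d := by
  obtain ⟨g, hg⟩ : ∃ g : GL (Fin N) ℝ, (g : Mat N) = A :=
    ⟨⟨A, JR N * Aᵀ * JR N, OJ_inv' hA, OJ_inv hA⟩, rfl⟩
  subst hg
  obtain ⟨X, hX, hXs, k, hk, hkk, hgk⟩ := polar_alg alg_GJ (g := g) hA
  obtain ⟨k', hk', hkk', d, hd, hD⟩ := conj_into isClosed_GJ isFlat_VJ (fun Y h1 h2 h3 => max_VJ hN (so2_of_lie h1) h2 h3) hX hXs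
  have hkk2 : (k' : Mat N) * (k' : Mat N)ᵀ = 1 := mul_eq_one_comm.1 hkk'
  refine ⟨d, hd, (k : Mat N) * (k' : Mat N)ᵀ, (k' : Mat N)ᵀ, ⟨?_, ?_⟩, ⟨?_, ?_⟩, ?_⟩
  · rw [Matrix.transpose_mul, Matrix.transpose_transpose]
    calc (k' : Mat N) * (k : Mat N)ᵀ * ((k : Mat N) * (k' : Mat N)ᵀ) = (k' : Mat N) * ((k : Mat N)ᵀ * (k : Mat N)) * (k' : Mat N)ᵀ := by
          simp only [Matrix.mul_assoc]
      _ = 1 := by rw [hkk, Matrix.mul_one, hkk2]
  · exact OJ_mul hk (by rw [Matrix.transpose_transpose]; exact OJ_transpose hk')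
  · rw [Matrix.transpose_transpose]
    exact hkk2
  · rw [Matrix.transpose_transpose]
    exact OJ_transpose hk'
  · rw [Matrix.transpose_transpose]
    have h3 : ((ex X : GL (Fin N) ℝ) : Mat N) = (k' : Mat N)ᵀ * diagonal (fun i => Real.exp (d i)) * (k' : Mat N) := by
      have h4 : X = (k' : Mat N)ᵀ * diagonal d * ((k' : Mat N)ᵀ)ᵀ := by
        rw [Matrix.transpose_transpose, ← hD]
        calc X = ((k' : Mat N)ᵀ * (k' : Mat N)) * X * ((k' : Mat N)ᵀ * (k' : Mat N)) := by rw [hkk', Matrix.one_mul, Matrix.mul_one]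
          _ = _ := by simp only [Matrix.mul_assoc]
      rw [ex_coe, h4, exp_diag _ (by rw [Matrix.transpose_transpose]; exact hkk2) (by rw [Matrix.transpose_transpose]; exact hkk'),
        Matrix.transpose_transpose]
    rw [hgk, Units.val_mul, h3]
    simp only [Matrix.mul_assoc]

/-- permutation matrices -/
def Q (σ : Equiv.Perm (Fin N)) : Mat N := Matrix.of fun i j => if i = σ j then 1 else 0

theorem Q_orth (σ : Equiv.Perm (Fin N)) : (Q σ)ᵀ * Q σ = 1 := by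
  ext i j
  rw [Matrix.mul_apply, Finset.sum_eq_single (σ i)]
  · simp only [Q, Matrix.transpose_apply, Matrix.of_apply, if_true, one_mul, Matrix.one_apply, EmbeddingLike.apply_eq_iff_eq]
  · intro k _ hk
    simp only [Q, Matrix.transpose_apply, Matrix.of_apply, if_neg hk, zero_mul]
  · intro h
    exact absurd (Finset.mem_univ _) h

theorem Q_J {σ : Equiv.Perm (Fin N)} (hσ : ∀ i, σ (jj N i) = jj N (σ i)) : (Q σ)ᵀ * JR N * Q σ = JR N := by
  ext i j
  rw [Matrix.mul_assoc, Matrix.mul_apply, Finset.sum_eq_single (σ i)]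
  · rw [JR_mul]
    simp only [Q, Matrix.transpose_apply, Matrix.of_apply, if_true, one_mul, JR]
    have : (jj N (σ i) = σ j) = (j = jj N i) := by
      rw [← hσ, EmbeddingLike.apply_eq_iff_eq]
      exact propext eq_comm
    simp only [this]
  · intro k _ hk
    simp only [Q, Matrix.transpose_apply, Matrix.of_apply, if_neg hk, zero_mul]
  · intro h
    exact absurd (Finset.mem_univ _) h

theorem Q_diag (σ : Equiv.Perm (Fin N)) (e : Fin N → ℝ) : Q σ * diagonal (fun i => e (σ i)) * (Q σ)ᵀ = diagonal e := by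
  ext i j
  rw [Matrix.mul_apply, Finset.sum_eq_single (σ.symm i)]
  · rw [Matrix.mul_diagonal]
    simp only [Q, Matrix.transpose_apply, Matrix.of_apply, Equiv.apply_symm_apply, if_true, one_mul, Matrix.diagonal_apply]
    by_cases h : i = j
    · subst h
      simp
    · rw [if_neg (fun h1 => h h1.symm), if_neg h, mul_zero]
  · intro k _ hk
    rw [Matrix.mul_diagonal]
    have : i ≠ σ k := fun h => hk (by rw [h, Equiv.symm_apply_apply])
    simp only [Q, Matrix.of_apply, if_neg this, zero_mul]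
  · intro h
    exact absurd (Finset.mem_univ _) h

theorem Kak.perm {A : Mat N} {d : Fin N → ℝ} (h : Kak A d) {σ : Equiv.Perm (Fin N)} (hσ : ∀ i, σ (jj N i) = jj N (σ i)) :
    Kak A (fun i => d (σ i)) := by
  obtain ⟨k, k', ⟨h1, h2⟩, ⟨h3, h4⟩, h5⟩ := h
  have aux : ∀ k : Mat N, kᵀ * k = 1 → (k * Q σ)ᵀ * (k * Q σ) = 1 := by
    intro k hk
    rw [Matrix.transpose_mul]
    calc (Q σ)ᵀ * kᵀ * (k * Q σ) = (Q σ)ᵀ * (kᵀ * k) * Q σ := by simp only [Matrix.mul_assoc]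
      _ = 1 := by rw [hk, Matrix.mul_one, Q_orth]
  refine ⟨k * Q σ, k' * Q σ, ⟨aux k h1, OJ_mul h2 (Q_J hσ)⟩, ⟨aux k' h3, OJ_mul h4 (Q_J hσ)⟩, ?_⟩
  rw [h5, Matrix.transpose_mul, ← Q_diag σ (fun i => Real.exp (d i))]
  simp only [Matrix.mul_assoc]

/-- the transposition of `a` and `jj a` -/
theorem swap_jj (a : Fin N) (i : Fin N) : Equiv.swap a (jj N a) (jj N i) = jj N (Equiv.swap a (jj N a) i) := by
  by_cases h1 : i = a
  · subst h1
    rw [Equiv.swap_apply_right, Equiv.swap_apply_left, jj_jj]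
  · by_cases h2 : i = jj N a
    · subst h2
      rw [jj_jj, Equiv.swap_apply_left, Equiv.swap_apply_right]
    · rw [Equiv.swap_apply_of_ne_of_ne h1 h2, Equiv.swap_apply_of_ne_of_ne (fun h => h2 (by rw [← h, jj_jj])) (fun h => h1 (jj_inj h))]

/-- the double transposition `(a c)(jj a jj c)` -/
theorem swap2_jj {a c : Fin N} (h1 : a ≠ c) (h2 : a ≠ jj N a) (h3 : a ≠ jj N c) (h4 : c ≠ jj N c) (i : Fin N) :
    (Equiv.swap a c * Equiv.swap (jj N a) (jj N c)) (jj N i) = jj N ((Equiv.swap a c * Equiv.swap (jj N a) (jj N c)) i) := by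
  have h5 : jj N a ≠ jj N c := fun h => h1 (jj_inj h)
  have h6 : c ≠ jj N a := fun h => h3 (eq_jj_iff.1 h)
  simp only [Equiv.Perm.mul_apply]
  by_cases e1 : i = a
  · subst e1
    rw [Equiv.swap_apply_left, Equiv.swap_apply_of_ne_of_ne (Ne.symm h3) (Ne.symm h4), Equiv.swap_apply_of_ne_of_ne h2 h3,
      Equiv.swap_apply_left]
  · by_cases e2 : i = c
    · subst e2
      rw [Equiv.swap_apply_right, Equiv.swap_apply_of_ne_of_ne (Ne.symm h2) (Ne.symm h6), Equiv.swap_apply_of_ne_of_ne h6 h4,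
        Equiv.swap_apply_right]
    · by_cases e3 : i = jj N a
      · subst e3
        rw [jj_jj, Equiv.swap_apply_of_ne_of_ne h2 h3, Equiv.swap_apply_left, Equiv.swap_apply_left,
          Equiv.swap_apply_of_ne_of_ne (Ne.symm h3) (Ne.symm h4), jj_jj]
      · by_cases e4 : i = jj N c
        · subst e4
          rw [jj_jj, Equiv.swap_apply_of_ne_of_ne h6 h4, Equiv.swap_apply_right, Equiv.swap_apply_right,
            Equiv.swap_apply_of_ne_of_ne (Ne.symm h2) (Ne.symm h6), jj_jj]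
        · have n1 : jj N i ≠ jj N a := fun h => e1 (jj_inj h)
          have n2 : jj N i ≠ jj N c := fun h => e2 (jj_inj h)
          have n3 : jj N i ≠ a := fun h => e3 (by rw [← h, jj_jj])
          have n4 : jj N i ≠ c := fun h => e4 (by rw [← h, jj_jj])
          rw [Equiv.swap_apply_of_ne_of_ne n1 n2, Equiv.swap_apply_of_ne_of_ne n3 n4, Equiv.swap_apply_of_ne_of_ne e3 e4,
            Equiv.swap_apply_of_ne_of_ne e1 e2]

theorem kak_sorted (hN : 4 ≤ N) {A : Mat N} (hA : Aᵀ * JR N * A = JR N) :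
    ∃ d : Fin N → ℝ, (∀ i, d (jj N i) = -d i) ∧ Antitone d ∧ Kak A d := by
  have h00 : 0 < N := by omega
  have h01 : 1 < N := by omega
  obtain ⟨a, ha⟩ : ∃ a : Fin N, (a : ℕ) = 0 := ⟨⟨0, h00⟩, rfl⟩
  obtain ⟨c, hc⟩ : ∃ c : Fin N, (c : ℕ) = 1 := ⟨⟨1, h01⟩, rfl⟩
  have hja : ((jj N a : Fin N) : ℕ) = N - 1 := by rw [jj_val, if_pos (by omega)]; omega
  have hjc : ((jj N c : Fin N) : ℕ) = N - 2 := by rw [jj_val, if_pos (by omega)]; omega
  have n1 : a ≠ c := fun h => by rw [h] at ha; omega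
  have n2 : a ≠ jj N a := fun h => by have := congrArg Fin.val h; omega
  have n3 : a ≠ jj N c := fun h => by have := congrArg Fin.val h; omega
  have n4 : c ≠ jj N c := fun h => by have := congrArg Fin.val h; omega
  have n5 : c ≠ jj N a := fun h => by have := congrArg Fin.val h; omega
  -- `d a ≥ 0`
  have s1 : ∃ d : Fin N → ℝ, (∀ i, d (jj N i) = -d i) ∧ 0 ≤ d a ∧ Kak A d := by
    obtain ⟨d, hd, hK⟩ := kak hN hA
    rcases le_total 0 (d a) with h | h
    · exact ⟨d, hd, h, hK⟩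
    · refine ⟨fun i => d (Equiv.swap a (jj N a) i), fun i => ?_, ?_, hK.perm (swap_jj a)⟩ <;> beta_reduce
      · rw [swap_jj, hd]
      · rw [Equiv.swap_apply_left, hd]
        linarith
  -- `d c ≥ 0`
  have s2 : ∃ d : Fin N → ℝ, (∀ i, d (jj N i) = -d i) ∧ 0 ≤ d a ∧ 0 ≤ d c ∧ Kak A d := by
    obtain ⟨d, hd, ha0, hK⟩ := s1
    rcases le_total 0 (d c) with h | h
    · exact ⟨d, hd, ha0, h, hK⟩
    · refine ⟨fun i => d (Equiv.swap c (jj N c) i), fun i => ?_, ?_, ?_, hK.perm (swap_jj c)⟩ <;> beta_reduce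
      · rw [swap_jj, hd]
      · rw [Equiv.swap_apply_of_ne_of_ne n1 n3]
        exact ha0
      · rw [Equiv.swap_apply_left, hd]
        linarith
  -- `d a ≥ d c`
  have s3 : ∃ d : Fin N → ℝ, (∀ i, d (jj N i) = -d i) ∧ 0 ≤ d c ∧ d c ≤ d a ∧ Kak A d := by
    obtain ⟨d, hd, ha0, hc0, hK⟩ := s2
    rcases le_total (d c) (d a) with h | h
    · exact ⟨d, hd, hc0, h, hK⟩
    · refine ⟨fun i => d ((Equiv.swap a c * Equiv.swap (jj N a) (jj N c)) i), fun i => ?_, ?_, ?_, hK.perm (swap2_jj n1 n2 n3 n4)⟩ <;> beta_reduce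
      · rw [swap2_jj n1 n2 n3 n4, hd]
      · rw [Equiv.Perm.mul_apply, Equiv.swap_apply_of_ne_of_ne n5 n4, Equiv.swap_apply_right]
        exact ha0
      · rw [Equiv.Perm.mul_apply, Equiv.Perm.mul_apply, Equiv.swap_apply_of_ne_of_ne n5 n4, Equiv.swap_apply_right,
          Equiv.swap_apply_of_ne_of_ne n2 n3, Equiv.swap_apply_left]
        exact h
  obtain ⟨d, hd, hc0, hca, hK⟩ := s3
  refine ⟨d, hd, ?_, hK⟩
  have hmid : ∀ i : Fin N, ¬((i : ℕ) < 2 ∨ N ≤ (i : ℕ) + 2) → d i = 0 := by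
    intro i hi
    have h1 : jj N i = i := by
      unfold jj
      rw [if_neg hi]
    have h2 := hd i
    rw [h1] at h2
    linarith
  have hval : ∀ i : Fin N, (d i = d a ∧ (i : ℕ) = 0) ∨ (d i = d c ∧ (i : ℕ) = 1) ∨ (d i = 0 ∧ 2 ≤ (i : ℕ) ∧ (i : ℕ) + 2 < N) ∨
      (d i = d (jj N c) ∧ (i : ℕ) + 2 = N) ∨ (d i = d (jj N a) ∧ (i : ℕ) + 1 = N) := by
    intro i
    have hi := i.2
    rcases (by omega : (i : ℕ) = 0 ∨ (i : ℕ) = 1 ∨ (2 ≤ (i : ℕ) ∧ (i : ℕ) + 2 < N) ∨ (i : ℕ) + 2 = N ∨ (i : ℕ) + 1 = N) with h | h | h | h | h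
    · exact Or.inl ⟨congrArg d (Fin.ext (by omega)), h⟩
    · exact Or.inr (Or.inl ⟨congrArg d (Fin.ext (by omega)), h⟩)
    · exact Or.inr (Or.inr (Or.inl ⟨hmid i (by omega), h⟩))
    · exact Or.inr (Or.inr (Or.inr (Or.inl ⟨congrArg d (Fin.ext (by omega)), h⟩)))
    · exact Or.inr (Or.inr (Or.inr (Or.inr ⟨congrArg d (Fin.ext (by omega)), h⟩)))
  have hda := hd a
  have hdc := hd c
  intro i j hij
  have hij' : (i : ℕ) ≤ (j : ℕ) := hij
  rcases hval i with ⟨e1, v1⟩ | ⟨e1, v1⟩ | ⟨e1, v1⟩ | ⟨e1, v1⟩ | ⟨e1, v1⟩ <;>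
    rcases hval j with ⟨e2, v2⟩ | ⟨e2, v2⟩ | ⟨e2, v2⟩ | ⟨e2, v2⟩ | ⟨e2, v2⟩ <;>
    first
    | (exfalso; omega)
    | linarith

end Pool.Agent.Helper81.OB
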