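import Pool.Agent.Helper81.OB.Lft
import Pool.Agent.Helper81.OB.Kak
import Pool.Agent.Helper81.OB.Cnj
import Pool.Agent.Helper66.BD.Conn

/-!
# Project OB, layer T, 3: the real rank of `so2 N`

`exists_std`: for every Cartan involution `θ` of `L`, `L` isomorphic to `so2 N`, there is an isomorphism `f` with `f (θ x) = - (f x)ᵀ`. `maxFlat_std`: then the elements with diagonal matrices are a maximal flat
`fl f`, of dimension two (`finrank_fl`). `rank_so2'`: `rankL θ = 2`.
-/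

set_option autoImplicit false

open Filter Topology Matrix

namespace Pool.Agent.Helper81.OB

open Pool.Agent.Helper55.OB (jj JR JJ so2 mem_so2)
open Pool.Agent.Helper96.SA
open Pool.Agent.Helper96.TO (MaxFlat rootsL coord_to killing_to finrank_eq_rankL)
open Pool.Agent.Helper66.BD (isAdj_component)

attribute [local instance 100] LieRing.ofAssociativeRing

variable {L : Type} [LieRing L] [LieAlgebra ℝ L] {M N : ℕ} {θ : L ≃ₗ⁅ℝ⁆ L} {b : Module.Basis (Fin M) ℝ L}

theorem tr_mem {X : Matrix (Fin N) (Fin N) ℝ} (hX : X ∈ so2 N) : -Xᵀ ∈ so2 N := by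
  have h1 : Xᵀ * JR N = -(JR N * X) := eq_neg_of_add_eq_zero_left (mem_so2.1 hX)
  rw [mem_so2, Matrix.transpose_neg, Matrix.transpose_transpose, Matrix.neg_mul, Matrix.mul_neg]
  have h2 : JR N * (Xᵀ * JR N) * JR N = JR N * -(JR N * X) * JR N := by rw [h1]
  have h3 : JR N * (Xᵀ * JR N) * JR N = JR N * Xᵀ := by
    rw [Matrix.mul_assoc, Matrix.mul_assoc, JR_sq, Matrix.mul_one]
  have h4 : JR N * -(JR N * X) * JR N = -(X * JR N) := by
    rw [Matrix.mul_neg, ← Matrix.mul_assoc, JR_sq, Matrix.one_mul, Matrix.neg_mul]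
  rw [h3, h4] at h2
  rw [h2, neg_neg, neg_add_cancel]

/-- `X ↦ -Xᵀ` -/
noncomputable def trE (N : ℕ) : so2 N ≃ₗ⁅ℝ⁆ so2 N where
  toFun X := ⟨-(X : Matrix (Fin N) (Fin N) ℝ)ᵀ, tr_mem X.2⟩
  map_add' X Y := Subtype.ext (by
    change -((X : Matrix (Fin N) (Fin N) ℝ) + (Y : Matrix (Fin N) (Fin N) ℝ))ᵀ = -(X : Matrix (Fin N) (Fin N) ℝ)ᵀ + -(Y : Matrix (Fin N) (Fin N) ℝ)ᵀ
    rw [Matrix.transpose_add, neg_add])
  map_smul' c X := Subtype.ext (by
    change -(c • (X : Matrix (Fin N) (Fin N) ℝ))ᵀ = c • -(X : Matrix (Fin N) (Fin N) ℝ)ᵀ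
    rw [Matrix.transpose_smul, smul_neg])
  map_lie' := fun {X Y} => Subtype.ext (by
    change -((X : Matrix (Fin N) (Fin N) ℝ) * (Y : Matrix (Fin N) (Fin N) ℝ) - (Y : Matrix (Fin N) (Fin N) ℝ) * (X : Matrix (Fin N) (Fin N) ℝ))ᵀ =
      -(X : Matrix (Fin N) (Fin N) ℝ)ᵀ * -(Y : Matrix (Fin N) (Fin N) ℝ)ᵀ - -(Y : Matrix (Fin N) (Fin N) ℝ)ᵀ * -(X : Matrix (Fin N) (Fin N) ℝ)ᵀ
    rw [Matrix.transpose_sub, Matrix.transpose_mul, Matrix.transpose_mul, neg_mul_neg, neg_mul_neg, neg_sub])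
  invFun X := ⟨-(X : Matrix (Fin N) (Fin N) ℝ)ᵀ, tr_mem X.2⟩
  left_inv X := Subtype.ext (by
    change -(-(X : Matrix (Fin N) (Fin N) ℝ)ᵀ)ᵀ = X
    rw [Matrix.transpose_neg, Matrix.transpose_transpose, neg_neg])
  right_inv X := Subtype.ext (by
    change -(-(X : Matrix (Fin N) (Fin N) ℝ)ᵀ)ᵀ = X
    rw [Matrix.transpose_neg, Matrix.transpose_transpose, neg_neg])

/-- the standard Cartan involution -/
noncomputable def th0 (f : L ≃ₗ⁅ℝ⁆ so2 N) : L ≃ₗ⁅ℝ⁆ L := (f.trans (trE N)).trans f.symm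

theorem mp_th0 (f : L ≃ₗ⁅ℝ⁆ so2 N) (x : L) : mp f (th0 f x) = -(mp f x)ᵀ := by
  change ((f (f.symm (trE N (f x))) : so2 N) : Matrix (Fin N) (Fin N) ℝ) = _
  rw [LieEquiv.apply_symm_apply]
  rfl

theorem th0_invol (f : L ≃ₗ⁅ℝ⁆ so2 N) (x : L) : th0 f (th0 f x) = x := by
  apply mp_inj f
  rw [mp_th0, mp_th0, Matrix.transpose_neg, Matrix.transpose_transpose, neg_neg]

theorem center_zero (h : CartanBasis θ b) (x : L) (hx : ∀ y : L, ⁅x, y⁆ = 0) : x = 0 := by
  have h1 : LieAlgebra.ad ℝ L x = 0 := LinearMap.ext fun y => by rw [LieAlgebra.ad_apply, hx, LinearMap.zero_apply]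
  apply b.repr.injective
  ext i
  rw [coord_to h, killingForm_apply_apply, h1, map_zero]
  simp

/-- the trace form -/
noncomputable def Bf (f : L ≃ₗ⁅ℝ⁆ so2 N) : L →ₗ[ℝ] L →ₗ[ℝ] ℝ :=
  LinearMap.mk₂ ℝ (fun x y => (mp f x * (mp f y)ᵀ).trace)
    (fun x y z => by rw [map_add, Matrix.add_mul, Matrix.trace_add])
    (fun c x y => by rw [map_smul, Matrix.smul_mul, Matrix.trace_smul])
    (fun x y z => by rw [map_add, Matrix.transpose_add, Matrix.mul_add, Matrix.trace_add])
    (fun c x y => by rw [map_smul, Matrix.transpose_smul, Matrix.mul_smul, Matrix.trace_smul])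

theorem Bf_apply (f : L ≃ₗ⁅ℝ⁆ so2 N) (x y : L) : Bf f x y = (mp f x * (mp f y)ᵀ).trace := rfl

theorem th0_pos (h : CartanBasis θ b) (f : L ≃ₗ⁅ℝ⁆ so2 N) (x : L) (hx : x ≠ 0) : 0 < -killingForm ℝ L x (th0 f x) := by
  have : FiniteDimensional ℝ L := Module.Finite.of_basis b
  refine killing_pos (center_zero h) (Bf f) (th0 f) (fun x y => ?_) (fun x hx => ?_) (fun x y z => ?_) hx
  · rw [Bf_apply, Bf_apply, ← Matrix.trace_transpose, Matrix.transpose_mul, Matrix.transpose_transpose]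
  · rw [Bf_apply]
    have h1 : 0 ≤ (mp f x * (mp f x)ᵀ).trace := by
      rw [Matrix.trace]
      refine Finset.sum_nonneg fun i _ => ?_
      rw [Matrix.diag_apply, Matrix.mul_apply]
      exact Finset.sum_nonneg fun j _ => mul_self_nonneg _
    refine lt_of_le_of_ne h1 fun h2 => hx ?_
    have h3 : (mp f x)ᴴᴴ * (mp f x)ᴴ = mp f x * (mp f x)ᵀ := by
      rw [Matrix.conjTranspose_conjTranspose, Matrix.conjTranspose_eq_transpose_of_trivial]
    have h4 : (mp f x)ᴴ = 0 := by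
      rw [← Matrix.trace_conjTranspose_mul_self_eq_zero_iff, h3]
      exact h2.symm
    have h5 : mp f x = 0 := by
      rw [← Matrix.conjTranspose_conjTranspose (mp f x), h4, Matrix.conjTranspose_zero]
    exact mp_inj f (by rw [h5, map_zero])
  · rw [Bf_apply, Bf_apply, mp_lie, mp_lie, mp_th0]
    simp only [Matrix.sub_mul, Matrix.mul_sub, Matrix.trace_sub, Matrix.transpose_sub, Matrix.transpose_mul, Matrix.transpose_neg,
      Matrix.transpose_transpose, Matrix.neg_mul, Matrix.mul_neg, Matrix.trace_neg]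
    have e1 : (mp f x * mp f y * (mp f z)ᵀ).trace = (mp f y * ((mp f z)ᵀ * mp f x)).trace := by
      rw [Matrix.mul_assoc, Matrix.trace_mul_comm, Matrix.mul_assoc]
    have e2 : (mp f y * mp f x * (mp f z)ᵀ).trace = (mp f y * (mp f x * (mp f z)ᵀ)).trace := by
      rw [Matrix.mul_assoc]
    rw [e1, e2]
    ring

/-- Every Cartan involution is the standard one for some isomorphism. -/
theorem exists_std (h : CartanBasis θ b) (f : L ≃ₗ⁅ℝ⁆ so2 N) : ∃ f' : L ≃ₗ⁅ℝ⁆ so2 N, ∀ x, mp f' (θ x) = -(mp f' x)ᵀ := by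
  obtain ⟨φ, hφ⟩ := cartan_conj h (th0_invol f) (th0_pos h f)
  refine ⟨φ.symm.trans f, fun x => ?_⟩
  have h1 : ∀ y, mp (φ.symm.trans f) y = mp f (φ.symm y) := fun y => rfl
  rw [h1, h1, ← mp_th0]
  congr 1
  apply φ.injective
  change φ (φ.symm (θ x)) = φ (th0 f (φ.symm x))
  rw [hφ, φ.apply_symm_apply, φ.apply_symm_apply]

/-- the elements with diagonal matrices -/
noncomputable def fl (f : L ≃ₗ⁅ℝ⁆ so2 N) : Submodule ℝ L := (VJ N).comap (mp f)

theorem mem_fl {f : L ≃ₗ⁅ℝ⁆ so2 N} {x : L} : x ∈ fl f ↔ ∃ d : Fin N → ℝ, (∀ i, d (jj N i) = -d i) ∧ mp f x = diagonal d := Iff.rfl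

theorem maxFlat_std (hN : 4 ≤ N) {f : L ≃ₗ⁅ℝ⁆ so2 N} (hf : ∀ x, mp f (θ x) = -(mp f x)ᵀ) : MaxFlat θ (fl f) where
  neg := by
    intro x hx
    obtain ⟨d, -, hd⟩ := hx
    apply mp_inj f
    rw [hf, map_neg, hd, Matrix.diagonal_transpose]
  abel := by
    intro x hx y hy
    obtain ⟨d, -, hd⟩ := hx
    obtain ⟨e, -, he⟩ := hy
    apply mp_inj f
    rw [mp_lie, hd, he, map_zero, diagonal_mul_diagonal, diagonal_mul_diagonal, sub_eq_zero]
    congr 1
    funext i
    ring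
  max := by
    intro x hx hxy
    refine max_VJ hN (mp_mem f x) ?_ fun H hH => ?_
    · have h1 := hf x
      rw [hx, map_neg] at h1
      exact (neg_injective h1).symm
    · obtain ⟨d, hd, rfl⟩ := hH
      obtain ⟨y, hy⟩ := mp_surj f (diag_mem hd)
      have h1 := hxy y ⟨d, hd, hy⟩
      have h2 := mp_lie f x y
      rw [h1, map_zero, hy] at h2
      exact sub_eq_zero.1 h2.symm

/-- the exponents with given first two entries -/
def dd (N : ℕ) (s t : ℝ) (i : Fin N) : ℝ :=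
  if (i : ℕ) = 0 then s else if (i : ℕ) = 1 then t else if (i : ℕ) + 1 = N then -s else if (i : ℕ) + 2 = N then -t else 0

theorem dd_jj (hN : 4 ≤ N) (s t : ℝ) (i : Fin N) : dd N s t (jj N i) = -dd N s t i := by
  have h1 := jj_val i
  have hi := i.2
  unfold dd
  split_ifs at h1 with h
  · rw [h1]
    rcases (by omega : (i : ℕ) = 0 ∨ (i : ℕ) = 1 ∨ (i : ℕ) + 1 = N ∨ (i : ℕ) + 2 = N) with h2 | h2 | h2 | h2
    · rw [if_neg (by omega), if_neg (by omega), if_pos (by omega), if_pos h2]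
    · rw [if_neg (by omega), if_neg (by omega), if_neg (by omega), if_pos (by omega), if_neg (by omega), if_pos h2]
    · rw [if_pos (by omega), if_neg (by omega), if_neg (by omega), if_pos h2, neg_neg]
    · rw [if_neg (by omega), if_pos (by omega), if_neg (by omega), if_neg (by omega), if_neg (by omega), if_pos h2, neg_neg]
  · rw [h1, if_neg (by omega), if_neg (by omega), if_neg (by omega), if_neg (by omega), neg_zero]

/-- an exponent is determined by its first two entries -/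
theorem dd_of (hN : 4 ≤ N) {d : Fin N → ℝ} (hd : ∀ i, d (jj N i) = -d i) :
    d = dd N (d ⟨0, by omega⟩) (d ⟨1, by omega⟩) := by
  funext i
  have hi := i.2
  have hj := jj_val i
  have hdi := hd i
  unfold dd
  by_cases h0 : (i : ℕ) = 0
  · rw [if_pos h0]
    congr 1
    exact Fin.ext h0
  rw [if_neg h0]
  by_cases h1 : (i : ℕ) = 1
  · rw [if_pos h1]
    congr 1
    exact Fin.ext h1
  rw [if_neg h1]
  by_cases h2 : (i : ℕ) + 1 = N
  · rw [if_pos h2]
    have h3 : jj N i = ⟨0, by omega⟩ := by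
      apply Fin.ext
      rw [hj, if_pos (by omega)]
      change N - 1 - (i : ℕ) = 0
      omega
    rw [h3] at hdi
    linarith
  rw [if_neg h2]
  by_cases h3 : (i : ℕ) + 2 = N
  · rw [if_pos h3]
    have h4 : jj N i = ⟨1, by omega⟩ := by
      apply Fin.ext
      rw [hj, if_pos (by omega)]
      change N - 1 - (i : ℕ) = 1
      omega
    rw [h4] at hdi
    linarith
  rw [if_neg h3]
  have h4 : jj N i = i := by
    unfold jj
    rw [if_neg (by omega)]
  rw [h4] at hdi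
  linarith

theorem finrank_fl (hN : 4 ≤ N) (f : L ≃ₗ⁅ℝ⁆ so2 N) : Module.finrank ℝ (fl f) = 2 := by
  let g : (Fin 2 → ℝ) →ₗ[ℝ] Matrix (Fin N) (Fin N) ℝ :=
    { toFun := fun v => diagonal (dd N (v 0) (v 1))
      map_add' := fun v w => by
        rw [Matrix.diagonal_add]
        congr 1
        funext i
        change dd N (v 0 + w 0) (v 1 + w 1) i = dd N (v 0) (v 1) i + dd N (w 0) (w 1) i
        unfold dd
        split_ifs <;> ring
      map_smul' := fun c v => by
        rw [RingHom.id_apply, ← Matrix.diagonal_smul]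
        congr 1
        funext i
        change dd N (c * v 0) (c * v 1) i = c * dd N (v 0) (v 1) i
        unfold dd
        split_ifs <;> ring }
  have hg : ∀ v, g v = diagonal (dd N (v 0) (v 1)) := fun v => rfl
  have hex : ∀ v : Fin 2 → ℝ, ∃ x, mp f x = g v := fun v => mp_surj f (diag_mem (dd_jj hN _ _))
  have hz : Function.Injective (fun v : Fin 2 → ℝ => g v) := by
    intro v w hvw
    have h1 : ∀ i, dd N (v 0) (v 1) i = dd N (w 0) (w 1) i := by
      intro i
      have h2 : g v i i = g w i i := congrFun (congrFun hvw i) i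
      rwa [hg, hg, Matrix.diagonal_apply_eq, Matrix.diagonal_apply_eq] at h2
    funext i
    fin_cases i
    · have := h1 ⟨0, by omega⟩
      simpa [dd] using this
    · have := h1 ⟨1, by omega⟩
      simpa [dd] using this
  -- the restriction of `mp f` to the flat
  let F : fl f →ₗ[ℝ] Matrix (Fin N) (Fin N) ℝ := (mp f).comp (fl f).subtype
  have hF : Function.Injective F := fun x y hxy => Subtype.ext (mp_inj f hxy)
  have hr : LinearMap.range F = LinearMap.range g := by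
    ext X
    constructor
    · rintro ⟨⟨x, d, hd, hx⟩, rfl⟩
      refine ⟨![d ⟨0, by omega⟩, d ⟨1, by omega⟩], ?_⟩
      rw [hg]
      change diagonal (dd N (d ⟨0, by omega⟩) (d ⟨1, by omega⟩)) = mp f x
      rw [hx, ← dd_of hN hd]
    · rintro ⟨v, rfl⟩
      obtain ⟨x, hx⟩ := hex v
      exact ⟨⟨x, dd N (v 0) (v 1), dd_jj hN _ _, hx⟩, hx⟩
  have h1 := (LinearEquiv.ofInjective F hF).finrank_eq
  have h2 := (LinearEquiv.ofInjective g hz).finrank_eq
  rw [h1, hr, ← h2]
  simp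

/-- **Layer T, 3.** -/
theorem rank_so2' (h : CartanBasis θ b) (f : L ≃ₗ⁅ℝ⁆ so2 N) (hN : 4 ≤ N) : rankL θ = 2 := by
  obtain ⟨f', hf'⟩ := exists_std h f
  rw [← finrank_eq_rankL h (isAdj_component b) (maxFlat_std hN hf'), finrank_fl hN]

end Pool.Agent.Helper81.OB
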