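import Pool.Agent.Helper55.OB.Defs

/-!
# Project OB, layer T: the form `JR`, its group and its Lie algebra

`JR_mul`, `mul_JR`: entries. `mem_so2_iff`. `schur`: a matrix which commutes with `so2 N`, `N ≥ 3`, is a scalar. `OJ`: the matrices with `Aᵀ J A = J`. `exp_mem`: `exp X` preserves `J`
for `X` in `so2 N`.
-/

set_option autoImplicit false

open Matrix

namespace Pool.Agent.Helper81.OB

open Pool.Agent.Helper55.OB (jj JR JJ so2 mem_so2)

variable {N : ℕ}

theorem jj_jj (i : Fin N) : jj N (jj N i) = i := by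
  unfold jj
  split_ifs with h1 h2 h3
  · exact Fin.rev_rev i
  · exfalso
    apply h2
    rw [Fin.val_rev]
    omega
  · rfl

theorem jj_inj {i j : Fin N} (h : jj N i = jj N j) : i = j := by
  rw [← jj_jj i, h, jj_jj]

theorem eq_jj_iff {i j : Fin N} : i = jj N j ↔ j = jj N i := by
  constructor
  · rintro rfl
    rw [jj_jj]
  · rintro rfl
    rw [jj_jj]

theorem JR_mul (M : Matrix (Fin N) (Fin N) ℝ) (i j : Fin N) : (JR N * M) i j = M (jj N i) j := by
  rw [Matrix.mul_apply, Finset.sum_eq_single (jj N i)]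
  · simp [JR]
  · intro k _ hk
    simp [JR, hk]
  · intro h
    exact absurd (Finset.mem_univ _) h

theorem mul_JR (M : Matrix (Fin N) (Fin N) ℝ) (i j : Fin N) : (M * JR N) i j = M i (jj N j) := by
  rw [Matrix.mul_apply, Finset.sum_eq_single (jj N j)]
  · simp [JR, jj_jj]
  · intro k _ hk
    have : j ≠ jj N k := fun h => hk (eq_jj_iff.1 h)
    simp [JR, this]
  · intro h
    exact absurd (Finset.mem_univ _) h

theorem JR_transpose : (JR N)ᵀ = JR N := by
  ext i j
  simp only [JR, Matrix.transpose_apply, Matrix.of_apply, eq_jj_iff]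

theorem JR_sq : JR N * JR N = 1 := by
  ext i j
  rw [JR_mul]
  simp only [JR, Matrix.of_apply, jj_jj, Matrix.one_apply, eq_comm]

theorem mem_so2_iff {X : Matrix (Fin N) (Fin N) ℝ} : X ∈ so2 N ↔ ∀ i j, X (jj N j) i = -X (jj N i) j := by
  rw [mem_so2]
  constructor
  · intro h i j
    have h1 := congrFun (congrFun h i) j
    rw [Matrix.add_apply, mul_JR, JR_mul, Matrix.transpose_apply, Matrix.zero_apply] at h1
    linarith
  · intro h
    ext i j
    rw [Matrix.add_apply, mul_JR, JR_mul, Matrix.transpose_apply, Matrix.zero_apply, h i j]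
    ring

/-- the standard elements of `so2 N` -/
theorem elt_mem (i j : Fin N) : Matrix.single (jj N i) j (1 : ℝ) - Matrix.single (jj N j) i 1 ∈ so2 N := by
  rw [mem_so2_iff]
  intro k l
  simp only [Matrix.sub_apply, Matrix.single_apply]
  have e1 : ∀ a b : Fin N, (jj N a = jj N b) = (a = b) := fun a b => propext ⟨jj_inj, fun h => by rw [h]⟩
  simp only [e1]
  by_cases h1 : i = k <;> by_cases h2 : j = l <;> by_cases h3 : i = l <;> by_cases h4 : j = k <;>
    simp [h1, h2, h3, h4, eq_comm] <;> simp_all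

theorem mul_single_apply (B : Matrix (Fin N) (Fin N) ℝ) (a b k l : Fin N) :
    (B * Matrix.single a b (1 : ℝ)) k l = if l = b then B k a else 0 := by
  rw [Matrix.mul_apply, Finset.sum_eq_single a]
  · simp only [Matrix.single_apply, true_and, mul_ite, mul_one, mul_zero]
    by_cases h : b = l
    · simp [h]
    · simp [h, Ne.symm h]
  · intro c _ hc
    simp [Matrix.single_apply, Ne.symm hc]
  · intro h
    exact absurd (Finset.mem_univ _) h

theorem single_mul_apply (B : Matrix (Fin N) (Fin N) ℝ) (a b k l : Fin N) :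
    (Matrix.single a b (1 : ℝ) * B) k l = if k = a then B b l else 0 := by
  rw [Matrix.mul_apply, Finset.sum_eq_single b]
  · simp only [Matrix.single_apply, and_true, ite_mul, one_mul, zero_mul]
    by_cases h : a = k
    · simp [h]
    · simp [h, Ne.symm h]
  · intro c _ hc
    simp [Matrix.single_apply, Ne.symm hc]
  · intro h
    exact absurd (Finset.mem_univ _) h

/-- `so2 N` acts irreducibly: its commutant consists of scalars. -/
theorem schur (hN : 3 ≤ N) {B : Matrix (Fin N) (Fin N) ℝ} (hB : ∀ X ∈ so2 N, B * X = X * B) :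
    ∃ c : ℝ, B = c • (1 : Matrix (Fin N) (Fin N) ℝ) := by
  have key : ∀ i j k l : Fin N, (if l = j then B k (jj N i) else 0) - (if l = i then B k (jj N j) else 0) =
      (if k = jj N i then B j l else 0) - (if k = jj N j then B i l else 0) := by
    intro i j k l
    have h1 := congrFun (congrFun (hB _ (elt_mem i j)) k) l
    rw [Matrix.mul_sub, Matrix.sub_mul, Matrix.sub_apply, Matrix.sub_apply, mul_single_apply, mul_single_apply,
      single_mul_apply, single_mul_apply] at h1
    exact h1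
  -- a third index
  have third : ∀ a b : Fin N, ∃ c : Fin N, c ≠ a ∧ c ≠ b := by
    intro a b
    by_contra hcon
    push Not at hcon
    have h1 : (Finset.univ : Finset (Fin N)) ⊆ {a, b} := by
      intro c _
      rw [Finset.mem_insert, Finset.mem_singleton]
      by_cases h : c = a
      · exact Or.inl h
      · exact Or.inr (hcon c h)
    have h2 := Finset.card_le_card h1
    rw [Finset.card_univ, Fintype.card_fin] at h2
    have h3 : ({a, b} : Finset (Fin N)).card ≤ 2 := Finset.card_le_two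
    omega
  have off : ∀ k m : Fin N, k ≠ m → B k m = 0 := by
    intro k m hkm
    obtain ⟨j, hj1, hj2⟩ := third (jj N m) (jj N k)
    have h1 := key (jj N m) j k j
    rw [jj_jj, if_pos rfl, if_neg hj1, if_neg hkm, if_neg (fun h => hj2 (eq_jj_iff.1 h))] at h1
    linarith
  have diag : ∀ m j : Fin N, j ≠ jj N m → B m m = B j j := by
    intro m j hj
    have h1 := key (jj N m) j m j
    rw [jj_jj, if_pos rfl, if_neg hj, if_pos rfl, if_neg (fun h => hj (eq_jj_iff.1 h))] at h1
    linarith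
  have h0 : 0 < N := by omega
  refine ⟨B ⟨0, h0⟩ ⟨0, h0⟩, ?_⟩
  ext k m
  rw [Matrix.smul_apply, smul_eq_mul]
  by_cases h : k = m
  · subst h
    rw [Matrix.one_apply_eq, mul_one]
    obtain ⟨j, hj1, hj2⟩ := third (jj N k) (jj N ⟨0, h0⟩)
    rw [diag k j hj1, diag ⟨0, h0⟩ j hj2]
  · rw [off k m h, Matrix.one_apply_ne h, mul_zero]

/-- the left inverse of a matrix which preserves `J` -/
theorem OJ_inv {A : Matrix (Fin N) (Fin N) ℝ} (hA : Aᵀ * JR N * A = JR N) : (JR N * Aᵀ * JR N) * A = 1 := by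
  rw [Matrix.mul_assoc, Matrix.mul_assoc, ← Matrix.mul_assoc Aᵀ, hA, JR_sq]

theorem OJ_inv' {A : Matrix (Fin N) (Fin N) ℝ} (hA : Aᵀ * JR N * A = JR N) : A * (JR N * Aᵀ * JR N) = 1 :=
  mul_eq_one_comm.1 (OJ_inv hA)

theorem OJ_mul {A B : Matrix (Fin N) (Fin N) ℝ} (hA : Aᵀ * JR N * A = JR N) (hB : Bᵀ * JR N * B = JR N) :
    (A * B)ᵀ * JR N * (A * B) = JR N := by
  rw [Matrix.transpose_mul]
  calc Bᵀ * Aᵀ * JR N * (A * B) = Bᵀ * (Aᵀ * JR N * A) * B := by simp only [Matrix.mul_assoc]
    _ = JR N := by rw [hA, hB]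

/-- the transposed matrix preserves `J` -/
theorem OJ_transpose {A : Matrix (Fin N) (Fin N) ℝ} (hA : Aᵀ * JR N * A = JR N) : A * JR N * Aᵀ = JR N := by
  have h1 := OJ_inv' hA
  calc A * JR N * Aᵀ = (A * (JR N * Aᵀ * JR N)) * JR N := by
        simp only [Matrix.mul_assoc, JR_sq, Matrix.mul_one]
    _ = JR N := by rw [h1, Matrix.one_mul]

theorem OJ_inv_mem {A : Matrix (Fin N) (Fin N) ℝ} (hA : Aᵀ * JR N * A = JR N) :
    (JR N * Aᵀ * JR N)ᵀ * JR N * (JR N * Aᵀ * JR N) = JR N := by
  rw [Matrix.transpose_mul, Matrix.transpose_mul, Matrix.transpose_transpose, JR_transpose]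
  calc JR N * (A * JR N) * JR N * (JR N * Aᵀ * JR N) = JR N * (A * JR N * (JR N * JR N) * Aᵀ) * JR N := by
        simp only [Matrix.mul_assoc]
    _ = JR N := by rw [JR_sq, Matrix.mul_one, OJ_transpose hA, JR_sq, Matrix.one_mul]

theorem isUnit_JR : IsUnit (JR N) := ⟨⟨JR N, JR N, JR_sq, JR_sq⟩, rfl⟩

theorem JR_inv : (JR N)⁻¹ = JR N := Matrix.inv_eq_left_inv JR_sq

/-- `exp X` preserves `J` -/
theorem exp_mem {X : Matrix (Fin N) (Fin N) ℝ} (hX : X ∈ so2 N) :
    (NormedSpace.exp X)ᵀ * JR N * NormedSpace.exp X = JR N := by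
  have h1 : Xᵀ = JR N * (-X) * (JR N)⁻¹ := by
    rw [JR_inv]
    have h2 : Xᵀ * JR N = -(JR N * X) := eq_neg_of_add_eq_zero_left (mem_so2.1 hX)
    calc Xᵀ = (Xᵀ * JR N) * JR N := by rw [Matrix.mul_assoc, JR_sq, Matrix.mul_one]
      _ = _ := by rw [h2, Matrix.mul_neg]
  have h3 : NormedSpace.exp (-X) * NormedSpace.exp X = 1 := by
    rw [← Matrix.exp_add_of_commute _ _ (Commute.neg_left (Commute.refl X)), neg_add_cancel, NormedSpace.exp_zero]
  rw [← Matrix.exp_transpose, h1, Matrix.exp_conj _ _ isUnit_JR, JR_inv]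
  calc JR N * NormedSpace.exp (-X) * JR N * JR N * NormedSpace.exp X
      = JR N * NormedSpace.exp (-X) * (JR N * JR N) * NormedSpace.exp X := by simp only [Matrix.mul_assoc]
    _ = JR N := by rw [JR_sq, Matrix.mul_one, Matrix.mul_assoc, h3, Matrix.mul_one]

end Pool.Agent.Helper81.OB
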