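import Pool.Agent.Helper81.OB.Jm
import Pool.Agent.Helper35.TZ.Conn

/-!
# Project OB, layer T, 1: lifts of the automorphisms of `so2 N`

`exists_lift'`: every automorphism in `autC b`, `L` isomorphic to `so2 N`, is the conjugation with a matrix which preserves `J`, unique up to sign. `lift_exp`: the lift of
`exp(ad x)` is `± exp (f x)`.
-/

set_option autoImplicit false

open Filter Topology Matrix

namespace Pool.Agent.Helper81.OB

open Pool.Agent.Helper55.OB (jj JR JJ so2 mem_so2)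
open Pool.Agent.Helper96.SA
open Pool.Agent.Helper35.TZ (autC component_le)

attribute [local instance 100] LieRing.ofAssociativeRing

variable {L : Type} [LieRing L] [LieAlgebra ℝ L] {M N n : ℕ} {θ : L ≃ₗ⁅ℝ⁆ L} {b : Module.Basis (Fin M) ℝ L}

open scoped Matrix.Norms.Operator in
/-- `exp(ad x)` is the conjugation with `exp (e x)`, for every linear map `e` to matrices which preserves brackets. -/
theorem exp_ad' {e : L →ₗ[ℝ] Matrix (Fin n) (Fin n) ℝ} (he : ∀ x y, e ⁅x, y⁆ = e x * e y - e y * e x)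
    (b : Module.Basis (Fin M) ℝ L) (x y : L) :
    e (toLin b b (NormedSpace.exp (LinearMap.toMatrix b b (LieAlgebra.ad ℝ L x))) y) * NormedSpace.exp (e x) =
      NormedSpace.exp (e x) * e y := by
  obtain ⟨T, hT⟩ : ∃ T : Mat M, T = LinearMap.toMatrix b b (LieAlgebra.ad ℝ L x) := ⟨_, rfl⟩
  rw [← hT]
  -- the linear map
  let ΛL : Mat M →ₗ[ℝ] Matrix (Fin n) (Fin n) ℝ := e ∘ₗ (LinearMap.applyₗ y) ∘ₗ (Matrix.toLin b b).toLinearMap
  let Λ : Mat M →L[ℝ] Matrix (Fin n) (Fin n) ℝ := ⟨ΛL, LinearMap.continuous_of_finiteDimensional _⟩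
  have hΛ : ∀ K, Λ K = e (toLin b b K y) := fun K => rfl
  have hΛT : ∀ K, Λ (T * K) = e x * Λ K - Λ K * e x := by
    intro K
    rw [hΛ, hΛ, toLin_mul b b b, LinearMap.comp_apply, hT, Matrix.toLin_toMatrix, LieAlgebra.ad_apply, he]
  have hX : ∀ s : ℝ, HasDerivAt (fun s : ℝ => Λ (NormedSpace.exp (s • T))) (e x * Λ (NormedSpace.exp (s • T)) - Λ (NormedSpace.exp (s • T)) * e x) s := by
    intro s
    have h1 : HasDerivAt (fun s : ℝ => Λ (NormedSpace.exp (s • T))) (Λ (T * NormedSpace.exp (s • T))) s :=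
      Λ.hasFDerivAt.comp_hasDerivAt s (hasDerivAt_exp_smul_const' (𝕂 := ℝ) T s)
    rw [hΛT] at h1
    exact h1
  have hP : ∀ s : ℝ, HasDerivAt (fun s : ℝ => NormedSpace.exp (s • (-(e x))) * Λ (NormedSpace.exp (s • T)) * NormedSpace.exp (s • e x)) 0 s := by
    intro s
    have h1 := ((hasDerivAt_exp_smul_const (𝕂 := ℝ) (-(e x)) s).mul (hX s)).mul (hasDerivAt_exp_smul_const' (𝕂 := ℝ) (e x) s)
    refine h1.congr_deriv ?_
    have key : ∀ a u v w : Matrix (Fin n) (Fin n) ℝ, (u * -a * w + u * (a * w - w * a)) * v + (u * w) * (a * v) = 0 := by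
      intro a u v w
      noncomm_ring
    exact key (e x) (NormedSpace.exp (s • (-(e x)))) (NormedSpace.exp (s • (e x))) (Λ (NormedSpace.exp (s • T)))
  have hc : NormedSpace.exp ((1 : ℝ) • (-(e x))) * Λ (NormedSpace.exp ((1 : ℝ) • T)) * NormedSpace.exp ((1 : ℝ) • e x) =
      NormedSpace.exp ((0 : ℝ) • (-(e x))) * Λ (NormedSpace.exp ((0 : ℝ) • T)) * NormedSpace.exp ((0 : ℝ) • e x) :=
    is_const_of_deriv_eq_zero (fun s => (hP s).differentiableAt) (fun s => (hP s).deriv) 1 0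
  simp only [one_smul, zero_smul, NormedSpace.exp_zero, Matrix.one_mul, Matrix.mul_one] at hc
  have e1 : NormedSpace.exp (e x) * NormedSpace.exp (-(e x)) = 1 := by
    rw [← Matrix.exp_add_of_commute _ _ (Commute.neg_right (Commute.refl (e x))), add_neg_cancel, NormedSpace.exp_zero]
  have e2 : Λ (1 : Mat M) = e y := by
    rw [hΛ, toLin_one]
    rfl
  rw [e2] at hc
  rw [← hΛ, ← hc]
  calc Λ (NormedSpace.exp T) * NormedSpace.exp (e x) = (NormedSpace.exp (e x) * NormedSpace.exp (-(e x))) * Λ (NormedSpace.exp T) *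
        NormedSpace.exp (e x) := by rw [e1, Matrix.one_mul]
    _ = _ := by simp only [Matrix.mul_assoc]

/-- the matrices of the elements of `L` -/
noncomputable def mp (f : L ≃ₗ⁅ℝ⁆ so2 N) : L →ₗ[ℝ] Matrix (Fin N) (Fin N) ℝ :=
  (so2 N).toSubmodule.subtype ∘ₗ (f : L →ₗ⁅ℝ⁆ so2 N).toLinearMap

theorem mp_apply (f : L ≃ₗ⁅ℝ⁆ so2 N) (x : L) : mp f x = (f x : Matrix (Fin N) (Fin N) ℝ) := rfl

theorem mp_lie (f : L ≃ₗ⁅ℝ⁆ so2 N) (x y : L) : mp f ⁅x, y⁆ = mp f x * mp f y - mp f y * mp f x := by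
  rw [mp_apply, LieEquiv.map_lie]
  rfl

theorem mp_inj (f : L ≃ₗ⁅ℝ⁆ so2 N) : Function.Injective (mp f) := fun _ _ hxy => f.injective (Subtype.ext hxy)

theorem mp_mem (f : L ≃ₗ⁅ℝ⁆ so2 N) (x : L) : mp f x ∈ so2 N := (f x).2

theorem mp_surj (f : L ≃ₗ⁅ℝ⁆ so2 N) {X : Matrix (Fin N) (Fin N) ℝ} (hX : X ∈ so2 N) : ∃ x, mp f x = X := by
  obtain ⟨x, hx⟩ := f.surjective ⟨X, hX⟩
  exact ⟨x, congrArg Subtype.val hx⟩

/-- the matrix `A` represents the linear map `g` of `L` -/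
def Rep (f : L ≃ₗ⁅ℝ⁆ so2 N) (b : Module.Basis (Fin M) ℝ L) (g : GL (Fin M) ℝ) (A : Matrix (Fin N) (Fin N) ℝ) : Prop :=
  Aᵀ * JR N * A = JR N ∧ ∀ x, A * mp f x = mp f (Matrix.toLin b b (g : Matrix (Fin M) (Fin M) ℝ) x) * A

theorem Rep.mul {f : L ≃ₗ⁅ℝ⁆ so2 N} {g g' : GL (Fin M) ℝ} {A A' : Matrix (Fin N) (Fin N) ℝ} (h : Rep f b g A)
    (h' : Rep f b g' A') : Rep f b (g * g') (A * A') := by
  refine ⟨OJ_mul h.1 h'.1, fun x => ?_⟩
  rw [Units.val_mul, toLin_mul b b b, LinearMap.comp_apply, Matrix.mul_assoc, h'.2 x, ← Matrix.mul_assoc, h.2, Matrix.mul_assoc]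

theorem Rep.one {f : L ≃ₗ⁅ℝ⁆ so2 N} : Rep f b 1 1 := by
  refine ⟨by rw [Matrix.transpose_one, Matrix.one_mul, Matrix.mul_one], fun x => ?_⟩
  rw [Units.val_one, toLin_one, Matrix.one_mul, Matrix.mul_one]
  rfl

theorem Rep.inv {f : L ≃ₗ⁅ℝ⁆ so2 N} {g : GL (Fin M) ℝ} {A : Matrix (Fin N) (Fin N) ℝ} (h : Rep f b g A) :
    Rep f b g⁻¹ (JR N * Aᵀ * JR N) := by
  refine ⟨OJ_inv_mem h.1, fun x => ?_⟩
  have h1 := h.2 (Matrix.toLin b b ((g⁻¹ : GL (Fin M) ℝ) : Matrix (Fin M) (Fin M) ℝ) x)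
  have h2 : Matrix.toLin b b (g : Matrix (Fin M) (Fin M) ℝ)
      (Matrix.toLin b b ((g⁻¹ : GL (Fin M) ℝ) : Matrix (Fin M) (Fin M) ℝ) x) = x := by
    rw [← LinearMap.comp_apply, ← toLin_mul b b b, ← Units.val_mul, mul_inv_cancel, Units.val_one, toLin_one]
    rfl
  rw [h2] at h1
  have e1 : mp f x = (mp f x * A) * (JR N * Aᵀ * JR N) := by rw [Matrix.mul_assoc, OJ_inv' h.1, Matrix.mul_one]
  calc JR N * Aᵀ * JR N * mp f x = JR N * Aᵀ * JR N * (mp f x * A) * (JR N * Aᵀ * JR N) := by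
        conv_lhs => rw [e1]
        simp only [Matrix.mul_assoc]
    _ = (JR N * Aᵀ * JR N * A) * mp f (Matrix.toLin b b ((g⁻¹ : GL (Fin M) ℝ) : Matrix (Fin M) (Fin M) ℝ) x) *
        (JR N * Aᵀ * JR N) := by
        rw [← h1]
        simp only [Matrix.mul_assoc]
    _ = _ := by rw [OJ_inv h.1, Matrix.one_mul]

theorem rep_exp (f : L ≃ₗ⁅ℝ⁆ so2 N) (b : Module.Basis (Fin M) ℝ L) (x : L) :
    Rep f b (ex (LinearMap.toMatrix b b (LieAlgebra.ad ℝ L x))) (NormedSpace.exp (mp f x)) := by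
  refine ⟨exp_mem (mp_mem f x), fun y => ?_⟩
  rw [ex_coe]
  exact (exp_ad' (mp_lie f) b x y).symm

/-- The matrix is unique up to sign. -/
theorem Rep.unique (hN : 3 ≤ N) {f : L ≃ₗ⁅ℝ⁆ so2 N} {g : GL (Fin M) ℝ} {A A' : Matrix (Fin N) (Fin N) ℝ} (h : Rep f b g A)
    (h' : Rep f b g A') : A = A' ∨ A = -A' := by
  obtain ⟨c, hc⟩ := schur hN (B := JR N * A'ᵀ * JR N * A) fun X hX => by
    obtain ⟨x, rfl⟩ := mp_surj f hX
    have h1 := h.2 x
    have h2 := h'.2 x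
    calc JR N * A'ᵀ * JR N * A * mp f x = JR N * A'ᵀ * JR N *
          (mp f (Matrix.toLin b b (g : Matrix (Fin M) (Fin M) ℝ) x) * (A' * (JR N * A'ᵀ * JR N))) * A := by
          rw [OJ_inv' h'.1, Matrix.mul_one, Matrix.mul_assoc, h1, Matrix.mul_assoc]
          simp only [Matrix.mul_assoc]
      _ = (JR N * A'ᵀ * JR N * A') * mp f x * (JR N * A'ᵀ * JR N) * A := by
          rw [← Matrix.mul_assoc (mp f _) A', ← h2]
          simp only [Matrix.mul_assoc]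
      _ = _ := by
          rw [OJ_inv h'.1, Matrix.one_mul]
          simp only [Matrix.mul_assoc]
  have hA : A = c • A' := by
    calc A = A' * (JR N * A'ᵀ * JR N) * A := by rw [OJ_inv' h'.1, Matrix.one_mul]
      _ = A' * (JR N * A'ᵀ * JR N * A) := by simp only [Matrix.mul_assoc]
      _ = c • A' := by rw [hc, Matrix.mul_smul, Matrix.mul_one]
  have hc2 : c * c = 1 := by
    have h1 := h.1
    rw [hA, Matrix.transpose_smul, Matrix.smul_mul, Matrix.smul_mul, Matrix.mul_smul, h'.1, smul_smul] at h1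
    have h0 : 0 < N := by omega
    have h2 := congrFun (congrFun h1 ⟨0, h0⟩) (jj N ⟨0, h0⟩)
    rw [Matrix.smul_apply, smul_eq_mul, JR, Matrix.of_apply, if_pos rfl, mul_one] at h2
    exact h2
  rcases mul_self_eq_one_iff.1 hc2 with h1 | h1
  · left
    rw [hA, h1, one_smul]
  · right
    rw [hA, h1, neg_one_smul]

theorem exists_rep_closure (f : L ≃ₗ⁅ℝ⁆ so2 N) {g : GL (Fin M) ℝ}
    (hg : g ∈ Subgroup.closure (Set.range fun x : L => ex (LinearMap.toMatrix b b (LieAlgebra.ad ℝ L x)))) :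
    ∃ A, Rep f b g A := by
  induction hg using Subgroup.closure_induction with
  | mem x hx =>
    obtain ⟨y, rfl⟩ := hx
    exact ⟨_, rep_exp f b y⟩
  | one => exact ⟨1, Rep.one⟩
  | mul x y _ _ hx hy =>
    obtain ⟨A, hA⟩ := hx
    obtain ⟨A', hA'⟩ := hy
    exact ⟨_, hA.mul hA'⟩
  | inv x _ hx =>
    obtain ⟨A, hA⟩ := hx
    exact ⟨_, hA.inv⟩

theorem exists_rep (h : CartanBasis θ b) (f : L ≃ₗ⁅ℝ⁆ so2 N) {g : GL (Fin M) ℝ} (hg : g ∈ autC b) :
    ∃ A, Rep f b g A := exists_rep_closure f (component_le h hg)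

/-- **Layer T, 1**: lifts of the automorphisms, multiplicative up to sign. -/
theorem exists_lift' (h : CartanBasis θ b) (f : L ≃ₗ⁅ℝ⁆ so2 N) (hN : 3 ≤ N) :
    ∃ r : autC b → Matrix (Fin N) (Fin N) ℝ, (∀ g g', r (g * g') = r g * r g' ∨ r (g * g') = -(r g * r g')) ∧
      (∀ g, (r g)ᵀ * JR N * r g = JR N) ∧
      ∀ (g : autC b) (x : L), r g * (f x : Matrix (Fin N) (Fin N) ℝ) =
        (f (Matrix.toLin b b ((g : GL (Fin M) ℝ) : Matrix (Fin M) (Fin M) ℝ) x) : Matrix (Fin N) (Fin N) ℝ) * r g := by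
  have hex : ∀ g : autC b, ∃ A, Rep f b (g : GL (Fin M) ℝ) A := fun g => exists_rep h f g.2
  choose r hr using hex
  exact ⟨r, fun g g' => (hr (g * g')).unique hN ((hr g).mul (hr g')), fun g => (hr g).1, fun g x => (hr g).2 x⟩

/-- The lift of `exp(ad x)` is `± exp (f x)`. -/
theorem lift_exp (hN : 3 ≤ N) {f : L ≃ₗ⁅ℝ⁆ so2 N} {r : autC b → Matrix (Fin N) (Fin N) ℝ}
    (hform : ∀ g, (r g)ᵀ * JR N * r g = JR N)
    (had : ∀ (g : autC b) (x : L), r g * (f x : Matrix (Fin N) (Fin N) ℝ) =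
        (f (Matrix.toLin b b ((g : GL (Fin M) ℝ) : Matrix (Fin M) (Fin M) ℝ) x) : Matrix (Fin N) (Fin N) ℝ) * r g)
    {g : autC b} {x : L} (hg : (g : GL (Fin M) ℝ) = ex (LinearMap.toMatrix b b (LieAlgebra.ad ℝ L x))) :
    r g = NormedSpace.exp (f x : Matrix (Fin N) (Fin N) ℝ) ∨ r g = -NormedSpace.exp (f x : Matrix (Fin N) (Fin N) ℝ) := by
  have h1 : Rep f b (g : GL (Fin M) ℝ) (r g) := ⟨hform g, fun y => had g y⟩
  have h2 := rep_exp f b x
  rw [← hg] at h2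
  exact h1.unique hN h2

end Pool.Agent.Helper81.OB
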