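import Pool.Agent.Helper81.OB.Lft
import Pool.Agent.Helper81.OB.Kak
import Pool.Agent.Helper66.BD.Conn
import Pool.Agent.Helper96.FR.Rge2

/-!
# Project OB, layer T, 2: the representations of the discrete subgroups of the automorphism group of `so2 N`

`exists_SO2'`: the lifts `r` of `exists_lift'` give, for every discrete subgroup of `autC b`, a proper projective representation `P` and singular value decompositions `S` with `SO2 P S`.
-/

set_option autoImplicit false

open Filter Topology Matrix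

namespace Pool.Agent.Helper81.OB

open Pool.Agent.Helper55.OB (jj JR JJ so2 mem_so2 SO2)
open Pool.Agent.Helper96.SA
open Pool.Agent.Helper35.TZ (autC component_le)
open Pool.Agent.Helper90.RK (PH Sv MN)
open Pool.Agent.Helper84.NI (ns IsU)
open Pool.Agent.Helper9.Lin (cjM)
open Pool.Agent.Helper96.FR (isCompact_mat isCompact_GL)
open Pool.Agent.Helper66.BD (isAdj_component)

attribute [local instance 100] LieRing.ofAssociativeRing

variable {L : Type} [LieRing L] [LieAlgebra ℝ L] {M N : ℕ} {θ : L ≃ₗ⁅ℝ⁆ L} {b : Module.Basis (Fin M) ℝ L}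

/-- real matrices as complex matrices -/
def cm (A : Matrix (Fin N) (Fin N) ℝ) : Matrix (Fin N) (Fin N) ℂ := A.map Complex.ofReal

theorem cm_apply (A : Matrix (Fin N) (Fin N) ℝ) (i j : Fin N) : cm A i j = ((A i j : ℝ) : ℂ) := rfl

theorem cm_mul (A B : Matrix (Fin N) (Fin N) ℝ) : cm (A * B) = cm A * cm B := Matrix.map_mul (f := Complex.ofRealHom)

theorem cm_neg (A : Matrix (Fin N) (Fin N) ℝ) : cm (-A) = -cm A := by
  ext i j
  rw [Matrix.neg_apply, cm_apply, cm_apply, Matrix.neg_apply, Complex.ofReal_neg]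

theorem cm_one : cm (1 : Matrix (Fin N) (Fin N) ℝ) = 1 := Matrix.map_one _ Complex.ofReal_zero Complex.ofReal_one

theorem cm_transpose (A : Matrix (Fin N) (Fin N) ℝ) : cm Aᵀ = (cm A)ᵀ := rfl

theorem cm_H (A : Matrix (Fin N) (Fin N) ℝ) : (cm A)ᴴ = cm Aᵀ := by
  ext i j
  rw [Matrix.conjTranspose_apply, cm_apply, cm_apply, Matrix.transpose_apply]
  exact Complex.conj_ofReal _

theorem cm_JR : cm (JR N) = JJ N := by
  ext i j
  simp only [JR, JJ, cm_apply, Matrix.of_apply]
  split_ifs <;> simp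

theorem cm_diag (d : Fin N → ℝ) : cm (diagonal d) = diagonal (fun i => (d i : ℂ)) := by
  ext i j
  by_cases h : i = j
  · subst h
    rw [cm_apply, Matrix.diagonal_apply_eq, Matrix.diagonal_apply_eq]
  · rw [cm_apply, Matrix.diagonal_apply_ne _ h, Matrix.diagonal_apply_ne _ h, Complex.ofReal_zero]

theorem cm_cj (A : Matrix (Fin N) (Fin N) ℝ) : cjM (cm A) = cm A := by
  ext i j
  rw [Pool.Agent.Helper9.Lin.cjM_apply, cm_apply]
  exact Complex.conj_ofReal _

theorem cm_form {A : Matrix (Fin N) (Fin N) ℝ} (hA : Aᵀ * JR N * A = JR N) : (cm A)ᵀ * JJ N * cm A = JJ N := by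
  rw [← cm_transpose, ← cm_JR, ← cm_mul, ← cm_mul, hA]

theorem cm_isU {A : Matrix (Fin N) (Fin N) ℝ} (hA : Aᵀ * A = 1) : IsU (cm A) := by
  change (cm A)ᴴ * cm A = 1
  rw [cm_H, ← cm_mul, hA, cm_one]

theorem cm_det {A : Matrix (Fin N) (Fin N) ℝ} (hA : Aᵀ * JR N * A = JR N) : ‖(cm A).det‖ = 1 := by
  have h1 : (cm A).det = ((A.det : ℝ) : ℂ) := (RingHom.map_det Complex.ofRealHom A).symm
  rw [h1, Complex.norm_real, Real.norm_eq_abs]
  have h2 : (JR N).det * (JR N).det = 1 := by rw [← Matrix.det_mul, JR_sq, Matrix.det_one]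
  have h3 := congrArg Matrix.det hA
  rw [Matrix.det_mul, Matrix.det_mul, Matrix.det_transpose] at h3
  have h4 : A.det * A.det = 1 := by
    have : A.det * A.det * ((JR N).det * (JR N).det) = (JR N).det * (JR N).det := by
      calc A.det * A.det * ((JR N).det * (JR N).det) = (A.det * (JR N).det * A.det) * (JR N).det := by ring
        _ = _ := by rw [h3]
    rw [h2, mul_one] at this
    exact this
  have h5 : |A.det| * |A.det| = 1 := by rw [← abs_mul, h4, abs_one]
  nlinarith [abs_nonneg A.det]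

/-- a left inverse of `mp f` -/
theorem exists_lin (f : L ≃ₗ⁅ℝ⁆ so2 N) : ∃ l : Matrix (Fin N) (Fin N) ℝ →ₗ[ℝ] L, ∀ x, l (mp f x) = x := by
  obtain ⟨l, hl⟩ := LinearMap.exists_leftInverse_of_injective (mp f) (LinearMap.ker_eq_bot.2 (mp_inj f))
  exact ⟨l, fun x => LinearMap.congr_fun hl x⟩

theorem rep_entry {f : L ≃ₗ⁅ℝ⁆ so2 N} {l : Matrix (Fin N) (Fin N) ℝ →ₗ[ℝ] L} (hl : ∀ x, l (mp f x) = x) {g : GL (Fin M) ℝ}
    {A : Matrix (Fin N) (Fin N) ℝ} (h : Rep f b g A) (i j : Fin M) :
    (g : Matrix (Fin M) (Fin M) ℝ) i j = b.repr (l (A * mp f (b j) * (JR N * Aᵀ * JR N))) i := by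
  have h1 : A * mp f (b j) * (JR N * Aᵀ * JR N) = mp f (Matrix.toLin b b (g : Matrix (Fin M) (Fin M) ℝ) (b j)) := by
    rw [h.2, Matrix.mul_assoc, OJ_inv' h.1, Matrix.mul_one]
  rw [h1, hl]
  have h2 := LinearMap.toMatrix_apply b b (Matrix.toLin b b (g : Matrix (Fin M) (Fin M) ℝ)) i j
  rw [LinearMap.toMatrix_toLin] at h2
  exact h2

/-- The automorphisms represented by bounded matrices are bounded. -/
theorem rep_bounded (f : L ≃ₗ⁅ℝ⁆ so2 N) (b : Module.Basis (Fin M) ℝ L) (C : ℝ) : ∃ C' : ℝ, ∀ (g : GL (Fin M) ℝ)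
    (A : Matrix (Fin N) (Fin N) ℝ), Rep f b g A → (∀ i j, ‖A i j‖ ≤ C) → ∀ i j,
      |(g : Matrix (Fin M) (Fin M) ℝ) i j| ≤ C' ∧ |((g⁻¹ : GL (Fin M) ℝ) : Matrix (Fin M) (Fin M) ℝ) i j| ≤ C' := by
  obtain ⟨l, hl⟩ := exists_lin f
  let F : Matrix (Fin N) (Fin N) ℝ → ℝ := fun A => ∑ i, ∑ j, |b.repr (l (A * mp f (b j) * (JR N * Aᵀ * JR N))) i|
  have hF : Continuous F := by
    refine continuous_finsetSum _ fun i _ => continuous_finsetSum _ fun j _ => ?_
    have h1 : Continuous ((b.coord i) ∘ₗ l) := LinearMap.continuous_of_finiteDimensional _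
    have h2 : Continuous fun A : Matrix (Fin N) (Fin N) ℝ => A * mp f (b j) * (JR N * Aᵀ * JR N) :=
      (continuous_id.matrix_mul continuous_const).matrix_mul
        ((continuous_const.matrix_mul continuous_id.matrix_transpose).matrix_mul continuous_const)
    exact continuous_abs.comp (h1.comp h2)
  obtain ⟨C', hC'⟩ := ((isCompact_mat (n := Fin N) (m := Fin N) (𝕜 := ℝ) C).image hF).bddAbove
  have key : ∀ (g : GL (Fin M) ℝ) (A : Matrix (Fin N) (Fin N) ℝ), Rep f b g A → (∀ i j, ‖A i j‖ ≤ C) → ∀ i j,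
      |(g : Matrix (Fin M) (Fin M) ℝ) i j| ≤ C' := by
    intro g A hA hb i j
    have h1 : F A ≤ C' := hC' ⟨A, hb, rfl⟩
    rw [rep_entry hl hA]
    refine le_trans ?_ h1
    refine le_trans ?_ (Finset.single_le_sum (f := fun i => ∑ j, |b.repr (l (A * mp f (b j) * (JR N * Aᵀ * JR N))) i|)
      (fun i _ => Finset.sum_nonneg fun j _ => abs_nonneg _) (Finset.mem_univ i))
    exact Finset.single_le_sum (f := fun j => |b.repr (l (A * mp f (b j) * (JR N * Aᵀ * JR N))) i|)
      (fun j _ => abs_nonneg _) (Finset.mem_univ j)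
  refine ⟨C', fun g A hA hb i j => ⟨key g A hA hb i j, key _ _ hA.inv (fun i j => ?_) i j⟩⟩
  rw [mul_JR, JR_mul, Matrix.transpose_apply]
  exact hb _ _

/-- **Layer T, 2.** -/
theorem exists_SO2' (h : CartanBasis θ b) {f : L ≃ₗ⁅ℝ⁆ so2 N} (hN : 5 ≤ N) {r : autC b → Matrix (Fin N) (Fin N) ℝ}
    (hmul : ∀ g g', r (g * g') = r g * r g' ∨ r (g * g') = -(r g * r g')) (hform : ∀ g, (r g)ᵀ * JR N * r g = JR N)
    (had : ∀ (g : autC b) (x : L), r g * (f x : Matrix (Fin N) (Fin N) ℝ) =
        (f (Matrix.toLin b b ((g : GL (Fin M) ℝ) : Matrix (Fin M) (Fin M) ℝ) x) : Matrix (Fin N) (Fin N) ℝ) * r g)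
    (Γ : Subgroup (autC b)) (hΓ : DiscreteTopology Γ) :
    ∃ (P : PH Γ N) (S : Sv P), SO2 P S ∧ ∀ γ : Γ, P.ι γ = (r (γ : autC b)).map Complex.ofReal := by
  have hrep : ∀ g : autC b, Rep f b (g : GL (Fin M) ℝ) (r g) := fun g => ⟨hform g, fun x => had g x⟩
  let P : PH Γ N :=
    { ι := fun γ => cm (r (γ : autC b))
      det1 := fun γ => cm_det (hform _)
      mul' := fun g g' => by
        rcases hmul (g : autC b) (g' : autC b) with h1 | h1
        · refine ⟨1, norm_one, ?_⟩
          rw [one_smul, ← cm_mul, ← h1]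
          rfl
        · refine ⟨-1, by rw [norm_neg, norm_one], ?_⟩
          rw [neg_one_smul, ← cm_mul, ← cm_neg, ← h1]
          rfl
      fin := fun R => by
        obtain ⟨C', hC'⟩ := rep_bounded f b (R + 1)
        have hcl : IsClosed (Γ : Set (autC b)) := Subgroup.isClosed_of_discrete
        have hGc : IsClosed ((autC b : Subgroup (GL (Fin M) ℝ)) : Set (GL (Fin M) ℝ)) := (isAdj_component b).closed
        have hemb : IsClosedEmbedding (fun g : Γ => ((g : autC b) : GL (Fin M) ℝ)) :=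
          hGc.isClosedEmbedding_subtypeVal.comp hcl.isClosedEmbedding_subtypeVal
        have hK := hemb.isCompact_preimage (isCompact_GL (r := M) C')
        refine (hK.finite_of_discrete).subset ?_
        intro γ hγ
        refine hC' _ _ (hrep (γ : autC b)) fun i j => ?_
        have h1 : ns (cm (r (γ : autC b))) ≤ R := hγ
        have h2 : ‖cm (r (γ : autC b)) i j‖ ^ 2 ≤ ns (cm (r (γ : autC b))) := by
          refine le_trans ?_ (Finset.single_le_sum (f := fun i => ∑ j, ‖cm (r (γ : autC b)) i j‖ ^ 2)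
            (fun i _ => Finset.sum_nonneg fun j _ => by positivity) (Finset.mem_univ i))
          exact Finset.single_le_sum (f := fun j => ‖cm (r (γ : autC b)) i j‖ ^ 2) (fun j _ => by positivity) (Finset.mem_univ j)
        have h3 : ‖cm (r (γ : autC b)) i j‖ = ‖r (γ : autC b) i j‖ := by
          rw [cm_apply, Complex.norm_real]
        rw [h3] at h2
        nlinarith [norm_nonneg (r (γ : autC b) i j), sq_nonneg (‖r (γ : autC b) i j‖ - 1)] }
  have hk : ∀ γ : Γ, ∃ d : Fin N → ℝ, (∀ i, d (jj N i) = -d i) ∧ Antitone d ∧ Kak (r (γ : autC b)) d := fun γ =>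
    kak_sorted (by omega) (hform _)
  choose d hd1 hd2 k k' hk1 hk2 hk3 using hk
  have hrev : ∀ (γ : Γ) (i : Fin N), d γ i.rev = -d γ i := by
    intro γ i
    by_cases hi : (i : ℕ) < 2 ∨ N ≤ (i : ℕ) + 2
    · have h1 : jj N i = i.rev := by
        unfold jj
        rw [if_pos hi]
      rw [← h1, hd1]
    · have h1 : jj N i = i := by
        unfold jj
        rw [if_neg hi]
      have h2 : jj N i.rev = i.rev := by
        unfold jj
        rw [if_neg]
        rw [Fin.val_rev]
        omega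
      have h3 := hd1 γ i
      have h4 := hd1 γ i.rev
      rw [h1] at h3
      rw [h2] at h4
      linarith
  have hmid : ∀ (γ : Γ) (i : Fin N), 2 ≤ (i : ℕ) → (i : ℕ) + 3 ≤ N → d γ i = 0 := by
    intro γ i h1 h2
    have h3 : jj N i = i := by
      unfold jj
      rw [if_neg (by omega)]
    have h4 := hd1 γ i
    rw [h3] at h4
    linarith
  let S : Sv P :=
    { kL := fun γ => cm (k γ)
      kR := fun γ => cm (k' γ)
      s := fun γ i => Real.exp (d γ i)
      uL := fun γ => cm_isU (hk1 γ).1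
      uR := fun γ => cm_isU (hk2 γ).1
      pos := fun γ i => Real.exp_pos _
      anti := fun γ i j hij => Real.exp_le_exp.2 (hd2 γ hij)
      spec := fun γ => by
        change cm (r (γ : autC b)) = cm (k γ) * diagonal (fun i => ((Real.exp (d γ i) : ℝ) : ℂ)) * (cm (k' γ))ᴴ
        rw [hk3 γ, cm_mul, cm_mul, cm_diag, cm_H] }
  refine ⟨P, S, ?_, fun γ => rfl⟩
  exact
    { hN := hN
      real := fun γ => cm_cj _
      form := fun γ => cm_form (hform _)
      realL := fun γ => cm_cj _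
      realR := fun γ => cm_cj _
      formL := fun γ => cm_form (hk1 γ).2
      formR := fun γ => cm_form (hk2 γ).2
      inv := fun γ i => by
        change Real.exp (d γ i) * Real.exp (d γ i.rev) = 1
        rw [← Real.exp_add, hrev, add_neg_cancel, Real.exp_zero]
      mid := fun γ i h1 h2 => by
        change Real.exp (d γ i) = 1
        rw [hmid γ i h1 h2, Real.exp_zero] }

end Pool.Agent.Helper81.OB
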